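import Pool.Agent.X239.GP.Low
set_option autoImplicit false

/-!
# 0/1 polytopes in which short monotone paths are satisfying assignments
-/

namespace Pool.Agent.X239.GZ

open Set
open Pool.Agent.X239.GP (InX sum_abs_le mid_of_exposed eq_of_extreme inX_sq inX_co inX_const
  sum_le_card)

abbrev Idx (n m M : ℕ) := (Fin n × Fin 2) ⊕ (Fin m × Fin M)

variable {n m M : ℕ} {σ : Fin m → Fin n → ℤ}

/-- how far clause `j` is satisfied -/
noncomputable def la (σ : Fin m → Fin n → ℤ) (x : Fin n × Fin 2 → ℝ) (j : Fin m) : ℝ :=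
  ∑ i, max 0 ((σ j i : ℝ) * (x (i, 0) - x (i, 1)))

/-- the polytope -/
def PZ (σ : Fin m → Fin n → ℤ) (M : ℕ) : Set (Idx n m M → ℝ) :=
  {z | InX (fun k => z (Sum.inl k)) ∧ (∀ p, 0 ≤ z (Sum.inr p) ∧ z (Sum.inr p) ≤ 1) ∧
    ∀ j k l, z (Sum.inr (j, k)) - z (Sum.inr (j, l)) + la σ (fun k => z (Sum.inl k)) j ≤ 1}

theorem la_nonneg (x : Fin n × Fin 2 → ℝ) (j : Fin m) : 0 ≤ la σ x j :=
  Finset.sum_nonneg fun _ _ => le_max_left _ _

theorem la_le_one (hσ : ∀ j i, |σ j i| ≤ 1) {x : Fin n × Fin 2 → ℝ} (h : InX x) (j : Fin m) :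
    la σ x j ≤ 1 := by
  refine le_trans ?_ (sum_abs_le h)
  refine Finset.sum_le_sum fun i _ => max_le (abs_nonneg _) ?_
  have h1 : |(σ j i : ℝ)| ≤ 1 := by exact_mod_cast hσ j i
  have h2 := abs_nonneg (x (i, 0) - x (i, 1))
  have h3 : (σ j i : ℝ) * (x (i, 0) - x (i, 1)) ≤ |(σ j i : ℝ)| * |x (i, 0) - x (i, 1)| := by
    rw [← abs_mul]; exact le_abs_self _
  nlinarith

/-- the decomposition of a block -/
theorem exists_mix {L : ℝ} (h0 : 0 ≤ L) (h1 : L ≤ 1) {y : Fin M → ℝ}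
    (hy : ∀ k, 0 ≤ y k ∧ y k ≤ 1) (h : ∀ k l, y k - y l + L ≤ 1) :
    ∃ (a : ℝ) (b : Fin M → ℝ), (0 ≤ a ∧ a ≤ 1) ∧ (∀ k, 0 ≤ b k ∧ b k ≤ 1) ∧
      ∀ k, y k = L * a + (1 - L) * b k := by
  rcases Nat.eq_zero_or_pos M with rfl | hM
  · exact ⟨0, fun k => k.elim0, ⟨le_rfl, zero_le_one⟩, fun k => k.elim0, fun k => k.elim0⟩
  have : Nonempty (Fin M) := ⟨⟨0, hM⟩⟩
  obtain ⟨k0, hk0⟩ := Finite.exists_max y
  rcases h1.eq_or_lt with rfl | hlt
  · refine ⟨y k0, fun _ => 0, hy k0, fun _ => ⟨le_rfl, zero_le_one⟩, fun k => ?_⟩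
    have h2 := h k0 k
    have h3 := hk0 k
    linarith
  · have hp : 0 < 1 - L := by linarith
    set α : ℝ := max 0 (y k0 - (1 - L)) with hα
    have hα0 : 0 ≤ α := le_max_left _ _
    have hα1 : y k0 - (1 - L) ≤ α := le_max_right _ _
    have hαL : α ≤ L := max_le h0 (by linarith [(hy k0).2])
    have hαy : ∀ k, α ≤ y k := fun k => max_le (hy k).1 (by linarith [h k0 k])
    have hαe : L * (α / L) = α := by
      by_cases hL : L = 0
      · have : α = 0 := le_antisymm (by linarith) hα0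
        rw [hL, this]; simp
      · field_simp
    refine ⟨α / L, fun k => (y k - α) / (1 - L), ⟨div_nonneg hα0 h0, div_le_one_of_le₀ hαL h0⟩,
      fun k => ⟨div_nonneg (by linarith [hαy k]) hp.le, ?_⟩, fun k => ?_⟩
    · rw [div_le_one hp]
      linarith [hk0 k]
    · rw [hαe]
      field_simp
      ring

theorem mix_ok {L a : ℝ} {b : Fin M → ℝ} (h0 : 0 ≤ L) (h1 : L ≤ 1) (ha : 0 ≤ a ∧ a ≤ 1)
    (hb : ∀ k, 0 ≤ b k ∧ b k ≤ 1) :
    (∀ k, 0 ≤ L * a + (1 - L) * b k ∧ L * a + (1 - L) * b k ≤ 1) ∧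
      ∀ k l, (L * a + (1 - L) * b k) - (L * a + (1 - L) * b l) + L ≤ 1 := by
  have hp : 0 ≤ 1 - L := by linarith
  refine ⟨fun k => ⟨?_, ?_⟩, fun k l => ?_⟩
  · exact add_nonneg (mul_nonneg h0 ha.1) (mul_nonneg hp (hb k).1)
  · nlinarith [mul_le_mul_of_nonneg_left ha.2 h0, mul_le_mul_of_nonneg_left (hb k).2 hp]
  · nlinarith [mul_le_mul_of_nonneg_left (show b k - b l ≤ 1 by linarith [(hb k).2, (hb l).1]) hp]

/-- Splitting of a point, with prescribed first parts. -/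
theorem lift (hσ : ∀ j i, |σ j i| ≤ 1) {z : Idx n m M → ℝ} (hz : z ∈ PZ σ M)
    {ξ ξ' : Fin n × Fin 2 → ℝ} (hξ : InX ξ) (hξ' : InX ξ')
    (h : ∀ k, ξ k + ξ' k = z (Sum.inl k) + z (Sum.inl k))
    (hl : ∀ j, la σ ξ j + la σ ξ' j = 2 * la σ (fun k => z (Sum.inl k)) j) :
    ∃ w ∈ PZ σ M, ∃ w' ∈ PZ σ M, (∀ k, w (Sum.inl k) = ξ k) ∧ w + w' = z + z := by
  have hc : ∀ j, ∃ q : ℝ × (Fin M → ℝ), (0 ≤ q.1 ∧ q.1 ≤ 1) ∧ (∀ k, 0 ≤ q.2 k ∧ q.2 k ≤ 1) ∧
      ∀ k, z (Sum.inr (j, k)) = la σ (fun k => z (Sum.inl k)) j * q.1 +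
        (1 - la σ (fun k => z (Sum.inl k)) j) * q.2 k := by
    intro j
    obtain ⟨a, b, h1, h2, h3⟩ := exists_mix (la_nonneg _ j) (la_le_one hσ hz.1 j)
      (y := fun k => z (Sum.inr (j, k))) (fun k => hz.2.1 _) (fun k l => hz.2.2 j k l)
    exact ⟨(a, b), h1, h2, h3⟩
  choose q hq1 hq2 hq3 using hc
  let mk : (Fin n × Fin 2 → ℝ) → Idx n m M → ℝ := fun ζ => Sum.elim ζ fun p =>
    la σ ζ p.1 * (q p.1).1 + (1 - la σ ζ p.1) * (q p.1).2 p.2
  have hmk : ∀ ζ, InX ζ → mk ζ ∈ PZ σ M := by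
    intro ζ hζ
    have hb := fun j => mix_ok (la_nonneg (σ := σ) ζ j) (la_le_one hσ hζ j) (hq1 j) (hq2 j)
    exact ⟨hζ, fun p => (hb p.1).1 p.2, fun j k l => (hb j).2 k l⟩
  refine ⟨mk ξ, hmk _ hξ, mk ξ', hmk _ hξ', fun k => rfl, ?_⟩
  funext p
  rcases p with k | ⟨j, s⟩
  · exact h k
  · have h1 := hq3 j s
    have h2 := hl j
    change (la σ ξ j * (q j).1 + (1 - la σ ξ j) * (q j).2 s) +
      (la σ ξ' j * (q j).1 + (1 - la σ ξ' j) * (q j).2 s) = z (Sum.inr (j, s)) + z (Sum.inr (j, s))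
    rw [h1]
    have h3 : la σ ξ' j = 2 * la σ (fun k => z (Sum.inl k)) j - la σ ξ j := by linarith
    rw [h3]
    ring

theorem max_mul {p t : ℝ} (hp : 0 ≤ p) : max 0 (p * t) = p * max 0 t := by
  rcases le_total 0 t with h | h
  · rw [max_eq_right h, max_eq_right (mul_nonneg hp h)]
  · rw [max_eq_left h, mul_zero, max_eq_left (mul_nonpos_of_nonneg_of_nonpos hp h)]

theorem zero_one_x (hσ : ∀ j i, |σ j i| ≤ 1) {z : Idx n m M → ℝ}
    (hz : z ∈ (PZ σ M).extremePoints ℝ) (k : Fin n × Fin 2) :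
    z (Sum.inl k) = 0 ∨ z (Sum.inl k) = 1 := by
  obtain ⟨w, hw, w', hw', e1, e2⟩ := lift hσ hz.1 (inX_sq hz.1.1 hz.1.1)
    (inX_co hz.1.1 hz.1.1) (fun k => by ring) (fun j => by
      unfold la
      rw [← Finset.sum_add_distrib, Finset.mul_sum]
      refine Finset.sum_congr rfl fun i _ => ?_
      have h0 := hz.1.1.nonneg (i, 0)
      have h1 := hz.1.1.nonneg (i, 1)
      have h2 := hz.1.1.le_one' (i, 0)
      have h3 := hz.1.1.le_one' (i, 1)
      simp only at h0 h1 h2 h3 ⊢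
      set a := z (Sum.inl (i, 0))
      set b := z (Sum.inl (i, 1))
      rw [show (σ j i : ℝ) * (a * a - b * b) = (a + b) * ((σ j i : ℝ) * (a - b)) by ring,
        show (σ j i : ℝ) * (a + a - a * a - (b + b - b * b)) =
          (2 - a - b) * ((σ j i : ℝ) * (a - b)) by ring,
        max_mul (p := a + b) (t := (σ j i : ℝ) * (a - b)) (by linarith),
        max_mul (p := 2 - a - b) (t := (σ j i : ℝ) * (a - b)) (by linarith)]
      ring)
  have h1 := eq_of_extreme hz hw hw' e2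
  have h2 := e1 k
  rw [h1] at h2
  have h3 : z (Sum.inl k) * (z (Sum.inl k) - 1) = 0 := by linarith
  rcases mul_eq_zero.1 h3 with h | h
  · exact Or.inl h
  · exact Or.inr (by linarith)

/-- For 0/1 vectors the satisfaction is zero or one. -/
theorem la_zero_one (hσ : ∀ j i, |σ j i| ≤ 1) {x : Fin n × Fin 2 → ℝ} (h : InX x)
    (h01 : ∀ k, x k = 0 ∨ x k = 1) (j : Fin m) : la σ x j = 0 ∨ la σ x j = 1 := by
  have hi : ∀ i, ∃ t : ℕ, max 0 ((σ j i : ℝ) * (x (i, 0) - x (i, 1))) = t := by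
    intro i
    have : ∃ u : ℤ, x (i, 0) - x (i, 1) = u := by
      rcases h01 (i, 0) with a | a <;> rcases h01 (i, 1) with b | b <;> rw [a, b]
      · exact ⟨0, by simp⟩
      · exact ⟨-1, by simp⟩
      · exact ⟨1, by simp⟩
      · exact ⟨0, by simp⟩
    obtain ⟨u, hu⟩ := this
    refine ⟨(max 0 (σ j i * u)).toNat, ?_⟩
    have h2 : (0 : ℤ) ≤ max 0 (σ j i * u) := le_max_left _ _
    have h3 : (((max 0 (σ j i * u)).toNat : ℤ) : ℝ) = ((max 0 (σ j i * u) : ℤ) : ℝ) := by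
      rw [Int.toNat_of_nonneg h2]
    rw [hu]
    rw [Int.cast_natCast] at h3
    rw [h3]
    push_cast
    rfl
  choose t ht using hi
  have h1 : la σ x j = ((∑ i, t i : ℕ) : ℝ) := by
    unfold la
    rw [Finset.sum_congr rfl fun i _ => ht i]
    push_cast; rfl
  have h2 := la_le_one hσ h j
  rw [h1] at h2 ⊢
  have h3 : ∑ i, t i ≤ 1 := by exact_mod_cast h2
  rcases Nat.le_one_iff_eq_zero_or_eq_one.1 h3 with h | h
  · left; rw [h]; simp
  · right; rw [h]; simp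

theorem zero_one (hσ : ∀ j i, |σ j i| ≤ 1) {z : Idx n m M → ℝ}
    (hz : z ∈ (PZ σ M).extremePoints ℝ) (p : Idx n m M) : z p = 0 ∨ z p = 1 := by
  rcases p with k | p
  · exact zero_one_x hσ hz k
  set w : Idx n m M → ℝ := Sum.elim (fun k => z (Sum.inl k)) fun p =>
    z (Sum.inr p) * z (Sum.inr p) with hw
  set w' : Idx n m M → ℝ := Sum.elim (fun k => z (Sum.inl k)) fun p =>
    z (Sum.inr p) + z (Sum.inr p) - z (Sum.inr p) * z (Sum.inr p) with hw'
  have hla := fun j => la_zero_one hσ hz.1.1 (fun k => zero_one_x hσ hz k) j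
  have hwP : w ∈ PZ σ M := by
    refine ⟨hz.1.1, fun p => ?_, fun j k l => ?_⟩
    · have h1 := hz.1.2.1 p
      simp only [hw, Sum.elim_inr]
      constructor <;> nlinarith [h1.1, h1.2]
    · have h1 := hz.1.2.1 (j, k)
      have h2 := hz.1.2.1 (j, l)
      have h3 := hz.1.2.2 j k l
      have h4 := hz.1.2.2 j l k
      simp only [hw, Sum.elim_inr, Sum.elim_inl]
      rcases hla j with h | h
      · rw [h]
        nlinarith [h1.1, h1.2, h2.1, h2.2]
      · rw [h] at h3 h4 ⊢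
        have h5 : z (Sum.inr (j, k)) = z (Sum.inr (j, l)) := by linarith
        rw [h5]
        linarith
  have hwP' : w' ∈ PZ σ M := by
    refine ⟨hz.1.1, fun p => ?_, fun j k l => ?_⟩
    · have h1 := hz.1.2.1 p
      simp only [hw', Sum.elim_inr]
      constructor <;> nlinarith [h1.1, h1.2]
    · have h1 := hz.1.2.1 (j, k)
      have h2 := hz.1.2.1 (j, l)
      have h3 := hz.1.2.2 j k l
      have h4 := hz.1.2.2 j l k
      simp only [hw', Sum.elim_inr, Sum.elim_inl]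
      rcases hla j with h | h
      · rw [h]
        nlinarith [h1.1, h1.2, h2.1, h2.2, mul_self_nonneg (1 - z (Sum.inr (j, k)))]
      · rw [h] at h3 h4 ⊢
        have h5 : z (Sum.inr (j, k)) = z (Sum.inr (j, l)) := by linarith
        rw [h5]
        linarith
  have h1 := eq_of_extreme hz hwP hwP' (by
    funext p
    rcases p with k | p
    · rfl
    · simp only [hw, hw', Pi.add_apply, Sum.elim_inr]; ring)
  have h2 := congrFun h1 (Sum.inr p)
  simp only [hw, Sum.elim_inr] at h2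
  have h3 : z (Sum.inr p) * (z (Sum.inr p) - 1) = 0 := by linarith
  rcases mul_eq_zero.1 h3 with h | h
  · exact Or.inl h
  · exact Or.inr (by linarith)

theorem anti_lt {x : Fin n × Fin 2 → ℝ} (h : InX x) {i i' : Fin n} (s s' : Fin 2)
    (hi : (i : ℕ) < i') : x (i', s') ≤ x (i, s) := by
  obtain ⟨i, hi0⟩ := i
  obtain ⟨i', hi0'⟩ := i'
  simp only at hi
  induction i', hi using Nat.le_induction generalizing s' with
  | base => exact h.anti _ _ _ _ rfl
  | succ i' h1 ih =>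
    exact (h.anti ⟨i', by omega⟩ ⟨i' + 1, hi0'⟩ s' s' rfl).trans (ih s' (by omega))

/-- Incomparable 0/1 vectors differ on one level only, and all other levels are constant. -/
theorem incomparable {x x' : Fin n × Fin 2 → ℝ} (h : InX x) (h' : InX x')
    (h01 : ∀ k, x k = 0 ∨ x k = 1) (h01' : ∀ k, x' k = 0 ∨ x' k = 1)
    (hn : ¬ ∀ k, x k ≤ x' k) (hn' : ¬ ∀ k, x' k ≤ x k) :
    (∀ i, x (i, 0) * x' (i, 0) = x (i, 1) * x' (i, 1)) ∧
      ∀ i, x (i, 0) + x' (i, 0) - x (i, 0) * x' (i, 0) =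
        x (i, 1) + x' (i, 1) - x (i, 1) * x' (i, 1) := by
  push Not at hn hn'
  obtain ⟨⟨i, s⟩, hi⟩ := hn
  obtain ⟨⟨i', s'⟩, hi'⟩ := hn'
  have e1 : x (i, s) = 1 ∧ x' (i, s) = 0 := by
    rcases h01 (i, s) with a | a <;> rcases h01' (i, s) with b | b <;> rw [a, b] at hi <;>
      first | exact ⟨a, b⟩ | (exfalso; linarith)
  have e2 : x (i', s') = 0 ∧ x' (i', s') = 1 := by
    rcases h01 (i', s') with a | a <;> rcases h01' (i', s') with b | b <;> rw [a, b] at hi' <;>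
      first | exact ⟨a, b⟩ | (exfalso; linarith)
  have hii : i = i' := by
    by_contra hne
    rcases lt_or_gt_of_ne (fun h => hne (Fin.ext h) : (i : ℕ) ≠ i') with hlt | hlt
    · have := anti_lt h' s s' hlt
      rw [e1.2, e2.2] at this
      linarith
    · have := anti_lt h s' s hlt
      rw [e1.1, e2.1] at this
      linarith
  subst hii
  have hlow : ∀ i1 : Fin n, (i1 : ℕ) < i → ∀ t, x (i1, t) = 1 ∧ x' (i1, t) = 1 := by
    intro i1 hlt t
    have a := anti_lt h t s hlt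
    have b := anti_lt h' t s' hlt
    rw [e1.1] at a
    rw [e2.2] at b
    exact ⟨le_antisymm (h.le_one' _) a, le_antisymm (h'.le_one' _) b⟩
  have hhigh : ∀ i1 : Fin n, (i : ℕ) < i1 → ∀ t, x (i1, t) = 0 ∧ x' (i1, t) = 0 := by
    intro i1 hlt t
    have a := anti_lt h s' t hlt
    have b := anti_lt h' s t hlt
    rw [e2.1] at a
    rw [e1.2] at b
    exact ⟨le_antisymm a (h.nonneg _), le_antisymm b (h'.nonneg _)⟩
  have hss : s ≠ s' := by
    intro hs
    subst hs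
    rw [e1.1] at e2
    linarith [e2.1]
  have hmid : x (i, 0) * x' (i, 0) = 0 ∧ x (i, 1) * x' (i, 1) = 0 ∧
      x (i, 0) + x' (i, 0) = 1 ∧ x (i, 1) + x' (i, 1) = 1 := by
    fin_cases s <;> fin_cases s' <;> simp at hss e1 e2 ⊢
    · rw [e1.1, e1.2, e2.1, e2.2]; norm_num
    · rw [e1.1, e1.2, e2.1, e2.2]; norm_num
  constructor
  · intro i1
    rcases lt_trichotomy (i1 : ℕ) i with hlt | heq | hlt
    · rw [(hlow i1 hlt 0).1, (hlow i1 hlt 0).2, (hlow i1 hlt 1).1, (hlow i1 hlt 1).2]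
    · have : i1 = i := Fin.ext heq
      subst this
      rw [hmid.1, hmid.2.1]
    · rw [(hhigh i1 hlt 0).1, (hhigh i1 hlt 0).2, (hhigh i1 hlt 1).1, (hhigh i1 hlt 1).2]
  · intro i1
    rcases lt_trichotomy (i1 : ℕ) i with hlt | heq | hlt
    · rw [(hlow i1 hlt 0).1, (hlow i1 hlt 0).2, (hlow i1 hlt 1).1, (hlow i1 hlt 1).2]
    · have : i1 = i := Fin.ext heq
      subst this
      rw [hmid.1, hmid.2.1, hmid.2.2.1, hmid.2.2.2]
    · rw [(hhigh i1 hlt 0).1, (hhigh i1 hlt 0).2, (hhigh i1 hlt 1).1, (hhigh i1 hlt 1).2]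

theorem nested (hσ : ∀ j i, |σ j i| ≤ 1) {z z' : Idx n m M → ℝ}
    (hz : z ∈ (PZ σ M).extremePoints ℝ) (hz' : z' ∈ (PZ σ M).extremePoints ℝ)
    (h : IsExposed ℝ (PZ σ M) (segment ℝ z z')) :
    (∀ k, z (Sum.inl k) ≤ z' (Sum.inl k)) ∨ ∀ k, z' (Sum.inl k) ≤ z (Sum.inl k) := by
  by_contra hc
  rw [not_or] at hc
  obtain ⟨hc1, hc2⟩ := hc
  obtain ⟨h1, h2⟩ := incomparable hz.1.1 hz'.1.1 (fun k => zero_one_x hσ hz k)
    (fun k => zero_one_x hσ hz' k) hc1 hc2
  set w : Idx n m M → ℝ := Sum.elim (fun k => z (Sum.inl k) * z' (Sum.inl k)) fun p =>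
    z (Sum.inr p) with hw
  set w' : Idx n m M → ℝ := Sum.elim (fun k => z (Sum.inl k) + z' (Sum.inl k) -
    z (Sum.inl k) * z' (Sum.inl k)) fun p => z' (Sum.inr p) with hw'
  have l1 : ∀ j, la σ (fun k => w (Sum.inl k)) j = 0 := by
    intro j
    unfold la
    refine Finset.sum_eq_zero fun i _ => ?_
    simp only [hw, Sum.elim_inl]
    rw [h1 i, sub_self, mul_zero, max_self]
  have l2 : ∀ j, la σ (fun k => w' (Sum.inl k)) j = 0 := by
    intro j
    unfold la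
    refine Finset.sum_eq_zero fun i _ => ?_
    simp only [hw', Sum.elim_inl]
    rw [h2 i, sub_self, mul_zero, max_self]
  have hwP : w ∈ PZ σ M := by
    refine ⟨inX_sq hz.1.1 hz'.1.1, fun p => hz.1.2.1 p, fun j k l => ?_⟩
    rw [l1]
    have a := (hz.1.2.1 (j, k)).2
    have b := (hz.1.2.1 (j, l)).1
    simp only [hw, Sum.elim_inr]
    linarith
  have hwP' : w' ∈ PZ σ M := by
    refine ⟨inX_co hz.1.1 hz'.1.1, fun p => hz'.1.2.1 p, fun j k l => ?_⟩
    rw [l2]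
    have a := (hz'.1.2.1 (j, k)).2
    have b := (hz'.1.2.1 (j, l)).1
    simp only [hw', Sum.elim_inr]
    linarith
  obtain ⟨a, b, ha, hb, hab, hw2⟩ := mid_of_exposed h hwP hwP' (by
    funext p
    rcases p with k | p
    · simp only [hw, hw', Pi.add_apply, Sum.elim_inl]; ring
    · rfl)
  push Not at hc1 hc2
  obtain ⟨k, hk⟩ := hc1
  obtain ⟨k', hk'⟩ := hc2
  have h3 : z' (Sum.inl k) = 0 ∧ z (Sum.inl k) = 1 := by
    rcases zero_one_x hσ hz k with h | h <;> rcases zero_one_x hσ hz' k with h' | h' <;>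
      rw [h, h'] at hk <;> first | exact ⟨h', h⟩ | (exfalso; linarith)
  have h4 : z (Sum.inl k') = 0 ∧ z' (Sum.inl k') = 1 := by
    rcases zero_one_x hσ hz k' with h | h <;> rcases zero_one_x hσ hz' k' with h' | h' <;>
      rw [h, h'] at hk' <;> first | exact ⟨h, h'⟩ | (exfalso; linarith)
  have h5 := congrFun hw2 (Sum.inl k)
  have h6 := congrFun hw2 (Sum.inl k')
  simp only [Pi.add_apply, Pi.smul_apply, smul_eq_mul, hw, Sum.elim_inl] at h5 h6
  rw [h3.1, h3.2] at h5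
  rw [h4.1, h4.2] at h6
  linarith

/-- If a block is not collapsed at both ends, then an edge changes at most one of its
coordinates. -/
theorem one_change {z z' : Idx n m M → ℝ} (hz : z ∈ PZ σ M) (hz' : z' ∈ PZ σ M)
    (h : IsExposed ℝ (PZ σ M) (segment ℝ z z')) {j : Fin m}
    (hl : la σ (fun k => z (Sum.inl k)) j = 0) (hl' : la σ (fun k => z' (Sum.inl k)) j = 0)
    {k l : Fin M} (hk : z (Sum.inr (j, k)) ≠ z' (Sum.inr (j, k))) (hkl : k ≠ l) :
    z (Sum.inr (j, l)) = z' (Sum.inr (j, l)) := by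
  have hup : ∀ (y : Idx n m M → ℝ) (_ : y ∈ PZ σ M) (_ : la σ (fun k => y (Sum.inl k)) j = 0)
      (t : ℝ), 0 ≤ t → t ≤ 1 → Function.update y (Sum.inr (j, k)) t ∈ PZ σ M := by
    intro y hy hly t ht0 ht1
    have e : (fun i => Function.update y (Sum.inr (j, k)) t (Sum.inl i)) =
        fun i => y (Sum.inl i) := by
      funext i
      rw [Function.update_of_ne (by simp)]
    have hb : ∀ p, 0 ≤ Function.update y (Sum.inr (j, k)) t (Sum.inr p) ∧
        Function.update y (Sum.inr (j, k)) t (Sum.inr p) ≤ 1 := by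
      intro p
      by_cases hp : p = (j, k)
      · subst hp
        rw [Function.update_self]
        exact ⟨ht0, ht1⟩
      · rw [Function.update_of_ne (by simpa using hp)]
        exact hy.2.1 p
    refine ⟨by rw [e]; exact hy.1, hb, fun j' a b => ?_⟩
    rw [e]
    by_cases hj : j' = j
    · subst hj
      rw [hly]
      linarith [(hb (j', a)).2, (hb (j', b)).1]
    · rw [Function.update_of_ne (by simp [hj]), Function.update_of_ne (by simp [hj])]
      exact hy.2.2 j' a b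
  have h1 := hup z hz hl (z' (Sum.inr (j, k))) (hz'.2.1 _).1 (hz'.2.1 _).2
  have h2 := hup z' hz' hl' (z (Sum.inr (j, k))) (hz.2.1 _).1 (hz.2.1 _).2
  obtain ⟨a, b, ha, hb, hab, he⟩ := mid_of_exposed h h1 h2 (by
    funext p
    by_cases hp : p = Sum.inr (j, k)
    · subst hp
      simp only [Pi.add_apply, Function.update_self]
      ring
    · simp only [Pi.add_apply, Function.update_of_ne hp])
  have h3 := congrFun he (Sum.inr (j, k))
  have h4 := congrFun he (Sum.inr (j, l))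
  simp only [Pi.add_apply, Pi.smul_apply, smul_eq_mul] at h3 h4
  rw [Function.update_self] at h3
  rw [Function.update_of_ne (by simp [Ne.symm hkl])] at h4
  have ea : a = 1 - b := by linarith
  rw [ea] at h3 h4
  have h5 : (b - 1) * (z' (Sum.inr (j, k)) - z (Sum.inr (j, k))) = 0 := by linarith
  have h6 : b = 1 := by
    rcases mul_eq_zero.1 h5 with h | h
    · linarith
    · exact absurd (by linarith) hk
  rw [h6] at h4
  linarith

end Pool.Agent.X239.GZ
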