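import Pool.Agent.X239.GZ.Path
set_option autoImplicit false

/-!
# The linear program of a formula, 0/1 version
-/

namespace Pool.Agent.X239.GZ

open Set
open Pool.Agent.NPC (Lit Distinct3 Bounded3 SAT3)
open Pool.Agent.X239.GP (Cl sgn sg sm abs_sm_le sat_iff cX ev ev_map getD_row InX MPath exposed_pre
  extreme_pre poly ob n2)

/-- the sign of the variable `i` in a part of a clause -/
def sgE (c : Cl) (b : Bool × Bool × Bool) (i : ℕ) : ℤ :=
  if c.1.2 = i then (if b.1 = true then sgn c.1.1 else 0) else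
    if c.2.1.2 = i then (if b.2.1 = true then sgn c.2.1.1 else 0) else
      if c.2.2.2 = i then (if b.2.2 = true then sgn c.2.2.1 else 0) else 0

/-- the same, for clause `j` -/
def sgEf (φ : List Cl) (j : ℕ) (b : Bool × Bool × Bool) (i : ℕ) : ℤ :=
  (φ[j]?).elim 0 fun c => sgE c b i

/-- the number of columns -/
def cols (φ : List Cl) (M : ℕ) : ℕ := 3 * φ.length * 2 + φ.length * M

/-- the parts of a clause -/
def b8 : List (Bool × Bool × Bool) :=
  [(false, false, false), (false, false, true), (false, true, false), (false, true, true),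
    (true, false, false), (true, false, true), (true, true, false), (true, true, true)]

theorem mem_b8 (b : Bool × Bool × Bool) : b ∈ b8 := by
  obtain ⟨a, b, c⟩ := b
  cases a <;> cases b <;> cases c <;> simp [b8]

/-- coefficient of a row of a clause -/
def cD (φ : List Cl) (M j k l : ℕ) (b : Bool × Bool × Bool) (q : ℕ) : ℤ :=
  (if q < n2 φ then sgEf φ j b (q / 2) * (if q % 2 = 0 then 1 else -1) else 0) +
    ((if q = n2 φ + (k + M * j) then 1 else 0) - (if q = n2 φ + (l + M * j) then 1 else 0))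

/-- a row of the first kind -/
def rowX (φ : List Cl) (M k1 k2 : ℕ) (b : ℤ) : List ℤ × ℤ :=
  ((List.range (cols φ M)).map (cX k1 k2), b)

/-- a row of a clause -/
def rowD (φ : List Cl) (M j k l : ℕ) (b : Bool × Bool × Bool) : List ℤ × ℤ :=
  ((List.range (cols φ M)).map (cD φ M j k l b), 1)

/-- all rows -/
def rows (φ : List Cl) (M : ℕ) : List (List ℤ × ℤ) :=
  ((List.range (cols φ M)).map fun k => rowX φ M (cols φ M) k 1) ++
  ((List.range (n2 φ - 2)).flatMap fun k => (List.range 2).map fun s =>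
    rowX φ M k (2 * (k / 2) + 2 + s) 0) ++
  (List.range φ.length).flatMap fun j => (List.range M).flatMap fun k =>
    (List.range M).flatMap fun l => b8.map fun b => rowD φ M j k l b

/-! ### Coordinates -/

/-- the numbering of the coordinates -/
def eq (n m M : ℕ) : Idx n m M ≃ Fin (n * 2 + m * M) :=
  (Equiv.sumCongr finProdFinEquiv finProdFinEquiv).trans finSumFinEquiv

theorem eq_inl {n m M : ℕ} (i : Fin n) (s : Fin 2) :
    (eq n m M (Sum.inl (i, s)) : ℕ) = s + 2 * i := by
  simp [eq, finProdFinEquiv]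

theorem eq_inr {n m M : ℕ} (j : Fin m) (s : Fin M) :
    (eq n m M (Sum.inr (j, s)) : ℕ) = n * 2 + (s + M * j) := by
  simp [eq, finProdFinEquiv]

variable {φ : List Cl} {M : ℕ}

/-- vectors -/
abbrev V (φ : List Cl) (M : ℕ) : Type := Fin (3 * φ.length * 2 + φ.length * M) → ℝ

/-- the coordinates, structured -/
def wz (z : V φ M) : Idx (3 * φ.length) φ.length M → ℝ :=
  fun p => z (eq (3 * φ.length) φ.length M p)

theorem ev_rowX (z : V φ M) {k1 k2 : ℕ} (h1 : k1 < cols φ M) (h2 : k2 < cols φ M) (b : ℤ) :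
    ev (rowX φ M k1 k2 b).1 z = z ⟨k2, h2⟩ - z ⟨k1, h1⟩ := by
  unfold rowX
  rw [show cols φ M = 3 * φ.length * 2 + φ.length * M from rfl, ev_map]
  have e : ∀ k : Fin (3 * φ.length * 2 + φ.length * M), ((cX k1 k2 k : ℤ) : ℝ) * z k =
      (if k = ⟨k2, h2⟩ then z k else 0) - if k = ⟨k1, h1⟩ then z k else 0 := by
    intro k
    unfold cX
    simp only [Fin.ext_iff]
    split_ifs <;> push_cast <;> ring
  rw [Finset.sum_congr rfl fun k _ => e k, Finset.sum_sub_distrib, Finset.sum_ite_eq',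
    Finset.sum_ite_eq']
  simp

theorem ev_rowX' (z : V φ M) {k2 : ℕ} (h2 : k2 < cols φ M) (b : ℤ) :
    ev (rowX φ M (cols φ M) k2 b).1 z = z ⟨k2, h2⟩ := by
  unfold rowX
  rw [show cols φ M = 3 * φ.length * 2 + φ.length * M from rfl, ev_map]
  have e : ∀ k : Fin (3 * φ.length * 2 + φ.length * M),
      ((cX (3 * φ.length * 2 + φ.length * M) k2 k : ℤ) : ℝ) * z k =
      (if k = ⟨k2, h2⟩ then z k else 0) := by
    intro k
    unfold cX
    have := k.2
    simp only [Fin.ext_iff]
    rw [if_neg (show ¬ (k : ℕ) = 3 * φ.length * 2 + φ.length * M by omega)]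
    split_ifs <;> push_cast <;> ring
  rw [Finset.sum_congr rfl fun k _ => e k, Finset.sum_ite_eq']
  simp

theorem sum_part (f : ℕ → ℝ) (z : V φ M) :
    ∑ q : Fin (3 * φ.length * 2 + φ.length * M), (if (q : ℕ) < n2 φ then f q else 0) * z q =
      ∑ i : Fin (3 * φ.length), (f (2 * i) * wz z (Sum.inl (i, 0)) +
        f (2 * i + 1) * wz z (Sum.inl (i, 1))) := by
  rw [← Equiv.sum_comp (eq (3 * φ.length) φ.length M), Fintype.sum_sum_type,
    Fintype.sum_prod_type, Fintype.sum_prod_type]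
  have h2 : ∑ j : Fin φ.length, ∑ s : Fin M,
      (if ((eq (3 * φ.length) φ.length M (Sum.inr (j, s)) : Fin _) : ℕ) < n2 φ then
        f (eq (3 * φ.length) φ.length M (Sum.inr (j, s))) else 0) *
        z (eq (3 * φ.length) φ.length M (Sum.inr (j, s))) = 0 := by
    refine Finset.sum_eq_zero fun j _ => Finset.sum_eq_zero fun s _ => ?_
    rw [eq_inr, if_neg (by unfold n2; omega), zero_mul]
  rw [h2, add_zero]
  refine Finset.sum_congr rfl fun i _ => ?_
  rw [Fin.sum_univ_two, eq_inl, eq_inl, if_pos (by unfold n2; simp; omega), if_pos (by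
    unfold n2; simp; omega)]
  simp only [Fin.isValue, Fin.val_zero, Fin.val_one, zero_add]
  rw [add_comm 1]
  rfl

theorem ev_rowD (z : V φ M) (j : Fin φ.length) (k l : Fin M) (b : Bool × Bool × Bool) :
    ev (rowD φ M j k l b).1 z =
      ∑ i : Fin (3 * φ.length), (sgE φ[(j : ℕ)] b i : ℝ) *
        (wz z (Sum.inl (i, 0)) - wz z (Sum.inl (i, 1))) +
      (wz z (Sum.inr (j, k)) - wz z (Sum.inr (j, l))) := by
  unfold rowD
  rw [show cols φ M = 3 * φ.length * 2 + φ.length * M from rfl, ev_map]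
  have e : ∀ q : Fin (3 * φ.length * 2 + φ.length * M), ((cD φ M j k l b q : ℤ) : ℝ) * z q =
      (if (q : ℕ) < n2 φ then (fun q : ℕ => ((sgEf φ j b (q / 2) *
        (if q % 2 = 0 then 1 else -1) : ℤ) : ℝ)) q else 0) * z q +
      ((if q = eq (3 * φ.length) φ.length M (Sum.inr (j, k)) then z q else 0) -
        if q = eq (3 * φ.length) φ.length M (Sum.inr (j, l)) then z q else 0) := by
    intro q
    unfold cD
    simp only [Fin.ext_iff, eq_inr]
    unfold n2
    split_ifs <;> push_cast <;> ring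
  rw [Finset.sum_congr rfl fun q _ => e q, Finset.sum_add_distrib,
    sum_part (fun q : ℕ => ((sgEf φ j b (q / 2) * (if q % 2 = 0 then 1 else -1) : ℤ) : ℝ)) z,
    Finset.sum_sub_distrib, Finset.sum_ite_eq', Finset.sum_ite_eq']
  simp only [Finset.mem_univ, if_true]
  congr 1
  refine Finset.sum_congr rfl fun i _ => ?_
  have h1 : sgEf φ j b (2 * i / 2) = sgE φ[(j : ℕ)] b i := by
    unfold sgEf
    rw [List.getElem?_eq_getElem j.2, show 2 * (i : ℕ) / 2 = i by omega]
    rfl
  have h2 : sgEf φ j b ((2 * i + 1) / 2) = sgE φ[(j : ℕ)] b i := by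
    unfold sgEf
    rw [List.getElem?_eq_getElem j.2, show (2 * (i : ℕ) + 1) / 2 = i by omega]
    rfl
  rw [h1, h2, if_pos (by omega), if_neg (by omega)]
  push_cast
  ring

/-- the feasible set of the rows -/
def PR (φ : List Cl) (M : ℕ) : Set (V φ M) :=
  {z | (∀ r ∈ rows φ M, ev r.1 z ≤ (r.2 : ℝ)) ∧ ∀ k, 0 ≤ z k}

theorem wz_inl (z : V φ M) {k : ℕ} (hk : k < 3 * φ.length * 2) :
    z ⟨k, by omega⟩ = wz z (Sum.inl (⟨k / 2, by omega⟩, ⟨k % 2, by omega⟩)) := by
  unfold wz
  congr 1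
  ext
  rw [eq_inl]
  simp only
  omega

/-- The rows of a clause. -/
theorem parts_iff (c : Cl) {n : ℕ} (x : Fin n × Fin 2 → ℝ) (t : ℝ) :
    (∀ b, ∑ i : Fin n, (sgE c b i : ℝ) * (x (i, 0) - x (i, 1)) + t ≤ 1) ↔
      t + ∑ i : Fin n, max 0 ((sg c i : ℝ) * (x (i, 0) - x (i, 1))) ≤ 1 := by
  constructor
  · intro h
    have dpos : ∀ v : ℕ, ∃ b : Bool, ∀ (s : ℤ) (i : Fin n), (i : ℕ) = v → s = sg c v →
        (((if b = true then s else 0 : ℤ) : ℝ)) * (x (i, 0) - x (i, 1)) =
          max 0 ((s : ℝ) * (x (i, 0) - x (i, 1))) := by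
      intro v
      by_cases hv : v < n
      · by_cases hp : 0 < (sg c v : ℝ) * (x (⟨v, hv⟩, 0) - x (⟨v, hv⟩, 1))
        · refine ⟨true, fun s i hi hs => ?_⟩
          have : i = ⟨v, hv⟩ := Fin.ext hi
          subst this
          subst hs
          rw [if_pos rfl, max_eq_right hp.le]
        · refine ⟨false, fun s i hi hs => ?_⟩
          have : i = ⟨v, hv⟩ := Fin.ext hi
          subst this
          subst hs
          rw [if_neg (by simp), max_eq_left (not_lt.1 hp)]
          simp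
      · exact ⟨false, fun s i hi _ => absurd (hi ▸ i.2) hv⟩
    obtain ⟨b1, h1⟩ := dpos c.1.2
    obtain ⟨b2, h2⟩ := dpos c.2.1.2
    obtain ⟨b3, h3⟩ := dpos c.2.2.2
    have h4 := h (b1, b2, b3)
    rw [add_comm]
    refine le_trans (le_of_eq ?_) h4
    congr 1
    refine Finset.sum_congr rfl fun i _ => ?_
    by_cases e1 : c.1.2 = i
    · have hs : sg c i = sgn c.1.1 := by unfold sg; rw [if_pos e1]
      have := h1 (sgn c.1.1) i e1.symm (by rw [e1, hs])
      unfold sgE
      rw [if_pos e1, this, hs]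
    · by_cases e2 : c.2.1.2 = i
      · have hs : sg c i = sgn c.2.1.1 := by unfold sg; rw [if_neg e1, if_pos e2]
        have := h2 (sgn c.2.1.1) i e2.symm (by rw [e2, hs])
        unfold sgE
        rw [if_neg e1, if_pos e2, this, hs]
      · by_cases e3 : c.2.2.2 = i
        · have hs : sg c i = sgn c.2.2.1 := by
            unfold sg; rw [if_neg e1, if_neg e2, if_pos e3]
          have := h3 (sgn c.2.2.1) i e3.symm (by rw [e3, hs])
          unfold sgE
          rw [if_neg e1, if_neg e2, if_pos e3, this, hs]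
        · have hs : sg c i = 0 := by unfold sg; rw [if_neg e1, if_neg e2, if_neg e3]
          unfold sgE
          rw [if_neg e1, if_neg e2, if_neg e3, hs]
          simp
  · intro h b
    refine le_trans ?_ h
    rw [add_comm]
    refine add_le_add le_rfl (Finset.sum_le_sum fun i _ => ?_)
    have key : ∀ (b : Bool) (s : ℤ), (((if b = true then s else 0 : ℤ) : ℝ)) *
        (x (i, 0) - x (i, 1)) ≤ max 0 ((s : ℝ) * (x (i, 0) - x (i, 1))) := by
      intro b s
      cases b
      · simp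
      · simp
    unfold sgE sg
    split_ifs <;> first | exact key _ _ | simp

theorem mem_PR (hφ : φ ≠ []) (z : V φ M) : z ∈ PR φ M ↔ wz z ∈ PZ (sm φ) M := by
  have hl : 0 < φ.length := List.length_pos_iff.2 hφ
  have hnn : (∀ k, 0 ≤ z k) ↔ ∀ p, 0 ≤ wz z p := by
    unfold wz
    exact ⟨fun h p => h _, fun h k => by simpa using h ((eq _ _ _).symm k)⟩
  have hone : (∀ k, z k ≤ 1) ↔ ∀ p, wz z p ≤ 1 := by
    unfold wz
    exact ⟨fun h p => h _, fun h k => by simpa using h ((eq _ _ _).symm k)⟩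
  have ha : (∀ k < cols φ M, ev (rowX φ M (cols φ M) k 1).1 z ≤ 1) ↔ ∀ k, z k ≤ 1 := by
    constructor
    · intro h k
      have h1 := h k k.2
      rw [ev_rowX' z (show (k : ℕ) < cols φ M from k.2)] at h1
      exact h1
    · intro h k hk
      rw [ev_rowX' z hk]
      exact h _
  have hb : (∀ k < n2 φ - 2, ∀ s < 2, ev (rowX φ M k (2 * (k / 2) + 2 + s) 0).1 z ≤ 0) ↔
      ∀ (i i' : Fin (3 * φ.length)) (s s' : Fin 2), (i' : ℕ) = i + 1 →
        wz z (Sum.inl (i', s')) ≤ wz z (Sum.inl (i, s)) := by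
    unfold n2
    constructor
    · intro h i i' s s' hi
      have h2 := i'.2
      have h3 := s.2
      have h4 := s'.2
      have h1 := h (2 * i + s) (by omega) s' s'.2
      rw [ev_rowX z (show 2 * (i : ℕ) + s < cols φ M by unfold cols; omega)
        (show 2 * ((2 * (i : ℕ) + s) / 2) + 2 + s' < cols φ M by unfold cols; omega),
        wz_inl z (show 2 * (i : ℕ) + s < 3 * φ.length * 2 by omega),
        wz_inl z (show 2 * ((2 * (i : ℕ) + s) / 2) + 2 + s' < 3 * φ.length * 2 by omega)] at h1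
      have e1 : (⟨(2 * (i : ℕ) + s) / 2, by omega⟩ : Fin (3 * φ.length)) = i := by
        ext; simp only; omega
      have e2 : (⟨(2 * (i : ℕ) + s) % 2, by omega⟩ : Fin 2) = s := by
        ext; simp only; omega
      have e3 : (⟨(2 * ((2 * (i : ℕ) + s) / 2) + 2 + s') / 2, by omega⟩ : Fin (3 * φ.length)) =
          i' := by
        ext; simp only; omega
      have e4 : (⟨(2 * ((2 * (i : ℕ) + s) / 2) + 2 + s') % 2, by omega⟩ : Fin 2) = s' := by
        ext; simp only; omega
      rw [e1, e2, e3, e4] at h1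
      linarith
    · intro h k hk s hs
      rw [ev_rowX z (show k < cols φ M by unfold cols; omega)
        (show 2 * (k / 2) + 2 + s < cols φ M by unfold cols; omega),
        wz_inl z (show k < 3 * φ.length * 2 by omega),
        wz_inl z (show 2 * (k / 2) + 2 + s < 3 * φ.length * 2 by omega)]
      rw [sub_nonpos]
      exact h _ _ _ _ (by simp only; omega)
  have hc : ∀ (j : Fin φ.length) (k l : Fin M), (∀ b, ev (rowD φ M j k l b).1 z ≤ 1) ↔
      wz z (Sum.inr (j, k)) - wz z (Sum.inr (j, l)) +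
        la (sm φ) (fun k => wz z (Sum.inl k)) j ≤ 1 := by
    intro j k l
    have := parts_iff φ[(j : ℕ)] (fun k => wz z (Sum.inl k))
      (wz z (Sum.inr (j, k)) - wz z (Sum.inr (j, l)))
    simp only [ev_rowD]
    exact this
  have hrows : (∀ r ∈ rows φ M, ev r.1 z ≤ (r.2 : ℝ)) ↔
      (∀ k < cols φ M, ev (rowX φ M (cols φ M) k 1).1 z ≤ 1) ∧
      (∀ k < n2 φ - 2, ∀ s < 2, ev (rowX φ M k (2 * (k / 2) + 2 + s) 0).1 z ≤ 0) ∧
      ∀ (j : Fin φ.length) (k l : Fin M), ∀ b, ev (rowD φ M j k l b).1 z ≤ 1 := by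
    unfold rows
    rw [List.forall_mem_append, List.forall_mem_append, and_assoc]
    refine and_congr ?_ (and_congr ?_ ?_)
    · simp only [List.forall_mem_map, List.mem_range]
      refine forall₂_congr fun s hs => ?_
      rw [show ((rowX φ M (cols φ M) s 1).2 : ℝ) = 1 by simp [rowX]]
    · simp only [List.mem_flatMap, List.mem_range, List.mem_map]
      constructor
      · intro h k hk s hs
        have := h _ ⟨k, hk, s, hs, rfl⟩
        simpa [rowX] using this
      · rintro h _ ⟨k, hk, s, hs, rfl⟩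
        simpa [rowX] using h k hk s hs
    · simp only [List.mem_flatMap, List.mem_range, List.mem_map]
      constructor
      · intro h j k l b
        have := h _ ⟨j, j.2, k, k.2, l, l.2, b, mem_b8 b, rfl⟩
        simpa [rowD] using this
      · rintro h _ ⟨j, hj, k, hk, l, hl, b, -, rfl⟩
        simpa [rowD] using h ⟨j, hj⟩ ⟨k, hk⟩ ⟨l, hl⟩ b
  unfold PR PZ
  rw [mem_ofPred_eq, mem_ofPred_eq, hrows, ha, hb, hnn, hone]
  constructor
  · rintro ⟨⟨h1, h2, h3⟩, h4⟩
    exact ⟨⟨fun k => h4 _, fun i s _ => h1 _, h2⟩, fun k => ⟨h4 _, h1 _⟩,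
      fun j k l => (hc j k l).1 (h3 j k l)⟩
  · rintro ⟨h1, h2, h3⟩
    refine ⟨⟨?_, h1.anti, fun j k l => (hc j k l).2 (h3 j k l)⟩, ?_⟩
    · rintro (k | k)
      · exact h1.le_one' k
      · exact (h2 k).2
    · rintro (k | k)
      · exact h1.nonneg k
      · exact (h2 k).1

/-! ### Standard form -/

/-- the matrix -/
def mA (φ : List Cl) (M : ℕ) : Fin (rows φ M).length → Fin (3 * φ.length * 2 + φ.length * M) → ℚ :=
  fun i k => (((rows φ M)[(i : ℕ)]).1.getD k 0 : ℤ)

/-- the right-hand side -/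
def mb (φ : List Cl) (M : ℕ) : Fin (rows φ M).length → ℚ :=
  fun i => (((rows φ M)[(i : ℕ)]).2 : ℤ)

/-- the coefficient of the objective function -/
def ccf (φ : List Cl) (M k : ℕ) : ℤ := if k < n2 φ then ((φ.length * M + 1 : ℕ) : ℤ) else 1

/-- the objective function -/
def mc (φ : List Cl) (M : ℕ) : Fin (3 * φ.length * 2 + φ.length * M) → ℚ :=
  fun k => (ccf φ M k : ℤ)

theorem poly_eq_PR : poly (mA φ M) (mb φ M) = PR φ M := by
  ext z
  unfold poly PR mA mb ev
  simp only [mem_ofPred_eq]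
  refine and_congr ?_ Iff.rfl
  constructor
  · intro h r hr
    obtain ⟨i, hi, rfl⟩ := List.getElem_of_mem hr
    have := h ⟨i, hi⟩
    simp only [Rat.cast_intCast] at this
    exact this
  · intro h i
    have := h _ (List.getElem_mem i.2)
    simp only [Rat.cast_intCast]
    exact this

/-- the equivalence -/
noncomputable def LL (φ : List Cl) (M : ℕ) : V φ M ≃L[ℝ] (Idx (3 * φ.length) φ.length M → ℝ) :=
  (LinearEquiv.funCongrLeft ℝ ℝ (eq (3 * φ.length) φ.length M)).toContinuousLinearEquiv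

theorem LL_apply (z : V φ M) : LL φ M z = wz z := rfl

theorem poly_eq (hφ : φ ≠ []) : poly (mA φ M) (mb φ M) = LL φ M ⁻¹' (PZ (sm φ) M) := by
  rw [poly_eq_PR]
  ext z
  rw [mem_PR hφ, mem_preimage, LL_apply]

theorem ob_eq (z : V φ M) : ob (mc φ M) z = CC (LL φ M z) := by
  unfold ob mc
  have e : ∀ k : Fin (3 * φ.length * 2 + φ.length * M),
      (((ccf φ M k : ℤ) : ℚ) : ℝ) * z k = ((ccf φ M k : ℤ) : ℝ) * z k := fun k => by
    rw [Rat.cast_intCast]
  rw [Finset.sum_congr rfl fun k _ => e k, ← Equiv.sum_comp (eq (3 * φ.length) φ.length M),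
    Fintype.sum_sum_type]
  unfold CC
  rw [LL_apply, Finset.mul_sum]
  congr 1
  · refine Finset.sum_congr rfl fun k _ => ?_
    obtain ⟨i, s⟩ := k
    rw [eq_inl]
    unfold ccf n2
    rw [if_pos (by omega)]
    push_cast
    rfl
  · refine Finset.sum_congr rfl fun k _ => ?_
    obtain ⟨i, s⟩ := k
    rw [eq_inr]
    unfold ccf n2
    rw [if_neg (by omega)]
    push_cast
    rw [one_mul]
    rfl

theorem LL_zero : LL φ M (fun _ => 0) = fun _ => 0 := rfl

theorem start_extreme (hφ : φ ≠ []) :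
    (fun _ => (0 : ℝ)) ∈ (poly (mA φ M) (mb φ M)).extremePoints ℝ := by
  rw [poly_eq hφ]
  have h := extreme_pre (LL φ M) (zero_extreme (M := M) (abs_sm_le φ))
  rw [← LL_zero] at h
  simpa using h

theorem all_zero_one (hφ : φ ≠ []) {z : V φ M}
    (hz : z ∈ (poly (mA φ M) (mb φ M)).extremePoints ℝ) (k : Fin _) : z k = 0 ∨ z k = 1 := by
  rw [poly_eq hφ] at hz
  have h := extreme_pre (LL φ M).symm hz
  have e : (LL φ M).symm ⁻¹' (LL φ M ⁻¹' (PZ (sm φ) M)) = PZ (sm φ) M := by
    ext w; simp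
  rw [e] at h
  have h2 := zero_one (abs_sm_le φ) h ((eq _ _ _).symm k)
  have e2 : (LL φ M).symm.symm z ((eq _ _ _).symm k) = z k := by
    change LL φ M z ((eq _ _ _).symm k) = z k
    rw [LL_apply]
    unfold wz
    simp
  rwa [e2] at h2

theorem poly_bounded (hφ : φ ≠ []) : Bornology.IsBounded (poly (mA φ M) (mb φ M)) := by
  have h : poly (mA φ M) (mb φ M) ⊆ Icc 0 (fun _ => 1) := by
    intro z hz
    refine ⟨fun k => hz.2 k, fun k => ?_⟩
    rw [poly_eq hφ] at hz
    have hk : z k = LL φ M z ((eq _ _ _).symm k) := by rw [LL_apply]; unfold wz; simp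
    rw [hk]
    exact (pz_cube hz _).2
  exact (Metric.isBounded_Icc _ _).subset h

/-- Short paths from satisfying assignments. -/
theorem short_lp (hd : Distinct3 φ) (hb : Bounded3 φ) (hφ : φ ≠ []) (hM : 0 < M) (h : SAT3 φ) :
    ∃ x : ℕ → V φ M, x 0 = (fun _ => 0) ∧
      MPath (poly (mA φ M) (mb φ M)) (ob (mc φ M)) (7 * φ.length) x := by
  obtain ⟨u, h1, h2⟩ := short_path hM (abs_sm_le φ) ((sat_iff hd hb).1 h)
  refine ⟨fun k => (LL φ M).symm (u k), ?_, ?_⟩
  · simp only
    rw [h1, ← LL_zero]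
    simp
  · have h6 := h2.pre (LL φ M)
    rw [← poly_eq hφ] at h6
    have e : (fun z => CC (LL φ M z)) = ob (mc φ M) := by
      funext z; rw [ob_eq]
    rw [e, show 2 * (3 * φ.length) + φ.length = 7 * φ.length by ring] at h6
    exact h6

/-- Long paths for unsatisfiable formulas. -/
theorem long_lp (hd : Distinct3 φ) (hb : Bounded3 φ) (hφ : φ ≠ []) (h : ¬ SAT3 φ)
    {N : ℕ} {x : ℕ → V φ M} (h0 : x 0 = fun _ => 0)
    (hx : MPath (poly (mA φ M) (mb φ M)) (ob (mc φ M)) N x) : M ≤ N := by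
  have h1 := hx.pre (LL φ M).symm
  have e : (LL φ M).symm ⁻¹' (poly (mA φ M) (mb φ M)) = PZ (sm φ) M := by
    rw [poly_eq hφ]
    ext z
    simp
  have e2 : (fun z => ob (mc φ M) ((LL φ M).symm z)) = CC := by
    funext z
    rw [ob_eq]
    simp
  rw [e, e2] at h1
  rcases sat_or_long (abs_sm_le φ) h1.1 (by
    simp only [ContinuousLinearEquiv.symm_symm]
    rw [h0, LL_zero]) h1.2.1 h1.2.2 with h2 | h2
  · exact absurd ((sat_iff hd hb).2 h2) h
  · exact h2

end Pool.Agent.X239.GZ
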