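import Pool.Agent.X239.GZ.Geo
import Pool.Agent.X239.GP.Tr
set_option autoImplicit false

/-!
# Long and short paths
-/

namespace Pool.Agent.X239.GZ

open Set
open Pool.Agent.X239.GP (InX sum_abs_le mid_of_exposed eq_of_extreme inX_sq inX_co inX_const
  sum_le_card exposed_of_slack extreme_of_exposed inX_conv tm tm_le MPath)

variable {n m M : ℕ} {σ : Fin m → Fin n → ℤ}

/-! ### The lower bound -/

theorem sum_step {z z' : Idx n m M → ℝ}
    (hz : z ∈ (PZ σ M).extremePoints ℝ) (hz' : z' ∈ (PZ σ M).extremePoints ℝ)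
    (h : IsExposed ℝ (PZ σ M) (segment ℝ z z')) {j : Fin m}
    (hl : la σ (fun k => z (Sum.inl k)) j = 0) (hl' : la σ (fun k => z' (Sum.inl k)) j = 0) :
    ∑ k, z' (Sum.inr (j, k)) ≤ ∑ k, z (Sum.inr (j, k)) + 1 := by
  by_cases hc : ∃ k, z (Sum.inr (j, k)) ≠ z' (Sum.inr (j, k))
  · obtain ⟨k, hk⟩ := hc
    rw [← Finset.add_sum_erase _ (fun k => z (Sum.inr (j, k))) (Finset.mem_univ k),
      ← Finset.add_sum_erase _ (fun k => z' (Sum.inr (j, k))) (Finset.mem_univ k)]
    have h1 : ∑ l ∈ Finset.univ.erase k, z (Sum.inr (j, l)) =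
        ∑ l ∈ Finset.univ.erase k, z' (Sum.inr (j, l)) :=
      Finset.sum_congr rfl fun l hl2 => one_change hz.1 hz'.1 h hl hl' hk
        (Finset.ne_of_mem_erase hl2).symm
    have h2 := hz.1.2.1 (j, k)
    have h3 := hz'.1.2.1 (j, k)
    linarith [h2.1, h3.2]
  · push Not at hc
    rw [Finset.sum_congr rfl fun k _ => hc k]
    linarith

theorem long_path {N : ℕ} {u : ℕ → Idx n m M → ℝ}
    (hu : ∀ k ≤ N, u k ∈ (PZ σ M).extremePoints ℝ)
    (he : ∀ k < N, IsExposed ℝ (PZ σ M) (segment ℝ (u k) (u (k + 1)))) {j : Fin m}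
    (hg : ∀ k ≤ N, la σ (fun i => u k (Sum.inl i)) j = 0)
    (h0 : ∀ k, u 0 (Sum.inr (j, k)) = 0) (hN : ∀ k, u N (Sum.inr (j, k)) = 1) : M ≤ N := by
  have h1 : ∀ k ≤ N, ∑ l, u k (Sum.inr (j, l)) ≤ k := by
    intro k
    induction k with
    | zero => intro _; simp [h0]
    | succ k ih =>
      intro hk
      have := sum_step (hu k (by omega)) (hu (k + 1) hk) (he k (by omega)) (hg k (by omega))
        (hg (k + 1) hk)
      have := ih (by omega)
      push_cast
      linarith
  have h2 := h1 N le_rfl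
  rw [Finset.sum_congr rfl fun l _ => hN l] at h2
  simp only [Finset.sum_const, Finset.card_univ, Fintype.card_fin, nsmul_eq_mul, mul_one] at h2
  exact_mod_cast h2

/-- the objective function -/
def CC (z : Idx n m M → ℝ) : ℝ :=
  ((m * M + 1 : ℕ) : ℝ) * ∑ k, z (Sum.inl k) + ∑ p, z (Sum.inr p)

theorem cc_lt {z z' : Idx n m M → ℝ} (hz : z ∈ PZ σ M)
    (hz' : z' ∈ PZ σ M) (h : ∑ k, z (Sum.inl k) + 1 ≤ ∑ k, z' (Sum.inl k)) :
    CC z < CC z' := by
  unfold CC
  have h1 : ∑ p : Fin m × Fin M, z (Sum.inr p) ≤ m * M := by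
    have h3 := Finset.sum_le_card_nsmul (Finset.univ : Finset (Fin m × Fin M))
      (fun p => z (Sum.inr p)) 1 (fun p _ => (hz.2.1 p).2)
    simpa using h3
  have h2 : 0 ≤ ∑ p : Fin m × Fin M, z' (Sum.inr p) := Finset.sum_nonneg fun p _ => (hz'.2.1 p).1
  push_cast
  nlinarith [mul_le_mul_of_nonneg_left h (show (0 : ℝ) ≤ m * M + 1 by positivity)]

theorem one_mem (hσ : ∀ j i, |σ j i| ≤ 1) : (fun _ => 1 : Idx n m M → ℝ) ∈ PZ σ M := by
  refine ⟨inX_const zero_le_one le_rfl, fun _ => ⟨zero_le_one, le_rfl⟩, fun j k l => ?_⟩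
  have := la_le_one hσ (inX_const (n := n) zero_le_one (le_refl (1 : ℝ))) j
  linarith

theorem cc_le {z : Idx n m M → ℝ} (hz : z ∈ PZ σ M) :
    CC z + ∑ p, (1 - z p) ≤ CC (fun _ => 1 : Idx n m M → ℝ) := by
  unfold CC
  rw [Fintype.sum_sum_type]
  simp only [Finset.sum_sub_distrib]
  have h1 : ∑ k, z (Sum.inl k) ≤ ∑ k : Fin n × Fin 2, (1 : ℝ) :=
    Finset.sum_le_sum fun k _ => hz.1.le_one' k
  have h2 : (0 : ℝ) ≤ m * M := by positivity
  push_cast
  nlinarith

theorem eq_one_of_max (hσ : ∀ j i, |σ j i| ≤ 1) {z : Idx n m M → ℝ} (hz : z ∈ PZ σ M)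
    (h : ∀ y ∈ PZ σ M, CC y ≤ CC z) (p : Idx n m M) : z p = 1 := by
  have h1 := cc_le hz
  have h2 := h _ (one_mem hσ)
  have h3 : ∀ p ∈ (Finset.univ : Finset (Idx n m M)), 0 ≤ 1 - z p := fun p _ => by
    rcases p with k | p
    · have : z (Sum.inl k) ≤ 1 := hz.1.le_one' k
      linarith
    · linarith [(hz.2.1 p).2]
  have h4 : ∑ p, (1 - z p) = 0 := le_antisymm (by linarith) (Finset.sum_nonneg h3)
  have := (Finset.sum_eq_zero_iff_of_nonneg h3).1 h4 p (Finset.mem_univ _)
  linarith

/-- **The lower bound**: a short monotone path gives a satisfying assignment. -/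
theorem sat_or_long (hσ : ∀ j i, |σ j i| ≤ 1) {N : ℕ} {u : ℕ → Idx n m M → ℝ}
    (hu : ∀ k ≤ N, u k ∈ (PZ σ M).extremePoints ℝ) (h0 : u 0 = fun _ => 0)
    (he : ∀ k < N, IsExposed ℝ (PZ σ M) (segment ℝ (u k) (u (k + 1))) ∧
      CC (u k) < CC (u (k + 1)))
    (hmax : ∀ y ∈ PZ σ M, CC y ≤ CC (u N)) :
    (∃ α : Fin n → Bool, ∀ j, ∃ i, (σ j i = 1 ∧ α i = true) ∨ (σ j i = -1 ∧ α i = false)) ∨
      M ≤ N := by
  classical
  by_cases hcol : ∀ j, ∃ k ≤ N, la σ (fun i => u k (Sum.inl i)) j ≠ 0
  swap
  · right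
    push Not at hcol
    obtain ⟨j, hj⟩ := hcol
    exact long_path hu (fun k hk => (he k hk).1) hj (fun k => by rw [h0])
      (fun k => eq_one_of_max hσ (hu N le_rfl).1 hmax _)
  · left
    have hmono1 : ∀ k < N, ∀ i, u k (Sum.inl i) ≤ u (k + 1) (Sum.inl i) := by
      intro k hk
      rcases nested hσ (hu k hk.le) (hu (k + 1) hk) (he k hk).1 with h | h
      · exact h
      · intro i
        by_contra hlt
        push Not at hlt
        have h1 : ∑ i, u (k + 1) (Sum.inl i) + 1 ≤ ∑ i, u k (Sum.inl i) := by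
          have h2 : u (k + 1) (Sum.inl i) + 1 = u k (Sum.inl i) := by
            rcases zero_one_x hσ (hu k hk.le) i with a | a <;>
              rcases zero_one_x hσ (hu (k + 1) hk) i with b | b <;> rw [a, b] at hlt ⊢ <;>
              first | (exfalso; linarith) | norm_num
          rw [← Finset.add_sum_erase _ (fun i => u (k + 1) (Sum.inl i)) (Finset.mem_univ i),
            ← Finset.add_sum_erase _ (fun i => u k (Sum.inl i)) (Finset.mem_univ i)]
          have h3 : ∑ i ∈ Finset.univ.erase i, u (k + 1) (Sum.inl i) ≤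
              ∑ i ∈ Finset.univ.erase i, u k (Sum.inl i) := Finset.sum_le_sum fun i _ => h i
          linarith
        exact absurd (cc_lt (hu (k + 1) hk).1 (hu k hk.le).1 h1) (not_lt.2 (he k hk).2.le)
    have hmono : ∀ k l, k ≤ l → l ≤ N → ∀ i, u k (Sum.inl i) ≤ u l (Sum.inl i) := by
      intro k l hkl
      induction l, hkl using Nat.le_induction with
      | base => exact fun _ i => le_rfl
      | succ l _ ih => exact fun hl i => (ih (by omega) i).trans (hmono1 l (by omega) i)
    refine ⟨fun i => decide (∃ k ≤ N, u k (Sum.inl (i, 0)) = 1 ∧ u k (Sum.inl (i, 1)) = 0),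
      fun j => ?_⟩
    obtain ⟨k, hk, hgk⟩ := hcol j
    obtain ⟨i, -, hi⟩ := Finset.exists_ne_zero_of_sum_ne_zero hgk
    have hi2 : 0 < (σ j i : ℝ) * (u k (Sum.inl (i, 0)) - u k (Sum.inl (i, 1))) := by
      by_contra hneg
      exact hi (max_eq_left (not_lt.1 hneg))
    refine ⟨i, ?_⟩
    have hs : σ j i = -1 ∨ σ j i = 0 ∨ σ j i = 1 := by
      have := abs_le.1 (hσ j i)
      omega
    rw [decide_eq_true_iff, decide_eq_false_iff_not]
    rcases hs with hs | hs | hs
    · right
      refine ⟨hs, ?_⟩
      rintro ⟨k', hk', e1, e2⟩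
      rw [hs] at hi2
      have h3 : u k (Sum.inl (i, 0)) = 0 ∧ u k (Sum.inl (i, 1)) = 1 := by
        push_cast at hi2
        rcases zero_one_x hσ (hu k hk) (i, 0) with a | a <;>
          rcases zero_one_x hσ (hu k hk) (i, 1) with b | b <;> rw [a, b] at hi2 <;>
          first | exact ⟨a, b⟩ | (exfalso; linarith)
      rcases le_total k k' with h | h
      · have := hmono k k' h hk' (i, 1)
        rw [h3.2, e2] at this
        linarith
      · have := hmono k' k h hk (i, 0)
        rw [h3.1, e1] at this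
        linarith
    · rw [hs] at hi2
      simp at hi2
    · left
      refine ⟨hs, k, hk, ?_⟩
      rw [hs] at hi2
      push_cast at hi2
      rcases zero_one_x hσ (hu k hk) (i, 0) with a | a <;>
        rcases zero_one_x hσ (hu k hk) (i, 1) with b | b <;> rw [a, b] at hi2 <;>
        first | exact ⟨a, b⟩ | (exfalso; linarith)

/-! ### Faces of subpolytopes of the cube -/

theorem exposed_cube {ι : Type*} [Fintype ι] {P : Set (ι → ℝ)} (hP : ∀ z ∈ P, ∀ i, 0 ≤ z i ∧ z i ≤ 1)
    (A B : ι → Prop) (hAB : ∀ i, A i → ¬ B i) {S : Set (ι → ℝ)}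
    (hS : ∀ z, z ∈ S ↔ z ∈ P ∧ (∀ i, A i → z i = 1) ∧ ∀ i, B i → z i = 0) (hne : S.Nonempty) :
    IsExposed ℝ P S := by
  classical
  let c : ι → ℝ := fun i => if A i then 1 else if B i then -1 else 0
  let l : (ι → ℝ) →ₗ[ℝ] ℝ :=
    { toFun := fun z => ∑ i, c i * z i
      map_add' := fun z z' => by
        rw [← Finset.sum_add_distrib]
        exact Finset.sum_congr rfl fun i _ => by rw [Pi.add_apply]; ring
      map_smul' := fun a z => by
        rw [RingHom.id_apply, smul_eq_mul, Finset.mul_sum]
        exact Finset.sum_congr rfl fun i _ => by rw [Pi.smul_apply, smul_eq_mul]; ring }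
  let s : (ι → ℝ) → ι → ℝ := fun z i => if A i then 1 - z i else if B i then z i else 0
  have hs : ∀ z ∈ P, ∀ i, 0 ≤ s z i := by
    intro z hz i
    have := hP z hz i
    simp only [s]
    split_ifs
    · linarith [this.2]
    · exact this.1
    · exact le_rfl
  refine exposed_of_slack l (∑ i, if A i then (1 : ℝ) else 0) (fun z => ∑ i, s z i) ?_ ?_ ?_ hne
  · intro z
    change ∑ i, c i * z i = _
    rw [← Finset.sum_sub_distrib]
    refine Finset.sum_congr rfl fun i _ => ?_
    simp only [c, s]
    split_ifs <;> ring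
  · exact fun z hz => Finset.sum_nonneg fun i _ => hs z hz i
  · intro z
    rw [hS]
    refine and_congr_right fun hz => ?_
    rw [Finset.sum_eq_zero_iff_of_nonneg fun i _ => hs z hz i]
    constructor
    · rintro ⟨h1, h2⟩ i -
      simp only [s]
      split_ifs with hA hB
      · rw [h1 i hA, sub_self]
      · exact h2 i hB
      · rfl
    · intro h
      refine ⟨fun i hA => ?_, fun i hB => ?_⟩
      · have := h i (Finset.mem_univ _)
        simp only [s, if_pos hA] at this
        linarith
      · have := h i (Finset.mem_univ _)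
        simp only [s, if_neg (fun hA => hAB i hA hB), if_pos hB] at this
        exact this

theorem extreme_cube {ι : Type*} [Fintype ι] {P : Set (ι → ℝ)} (hP : ∀ z ∈ P, ∀ i, 0 ≤ z i ∧ z i ≤ 1)
    {z : ι → ℝ} (hz : z ∈ P) (h01 : ∀ i, z i = 0 ∨ z i = 1) : z ∈ P.extremePoints ℝ := by
  refine extreme_of_exposed (exposed_cube hP (fun i => z i = 1) (fun i => z i = 0)
    (fun i h1 h2 => by rw [h1] at h2; exact one_ne_zero h2) (fun w => ?_) ⟨z, rfl⟩)
  rw [mem_singleton_iff]
  constructor
  · rintro rfl
    exact ⟨hz, fun _ h => h, fun _ h => h⟩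
  · rintro ⟨-, h1, h2⟩
    funext i
    rcases h01 i with h | h
    · rw [h, h2 i h]
    · rw [h, h1 i h]

theorem pz_cube {z : Idx n m M → ℝ} (hz : z ∈ PZ σ M) (p : Idx n m M) : 0 ≤ z p ∧ z p ≤ 1 := by
  rcases p with k | p
  · exact ⟨hz.1.nonneg k, hz.1.le_one' k⟩
  · exact hz.2.1 p

theorem la_conv {x x' : Fin n × Fin 2 → ℝ} {a b : ℝ} (ha : 0 ≤ a) (hb : 0 ≤ b) (j : Fin m) :
    la σ (a • x + b • x') j ≤ a * la σ x j + b * la σ x' j := by
  unfold la
  rw [Finset.mul_sum, Finset.mul_sum, ← Finset.sum_add_distrib]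
  refine Finset.sum_le_sum fun i _ => max_le ?_ ?_
  · exact add_nonneg (mul_nonneg ha (le_max_left _ _)) (mul_nonneg hb (le_max_left _ _))
  · have h1 := mul_le_mul_of_nonneg_left (le_max_right 0 ((σ j i : ℝ) * (x (i, 0) - x (i, 1)))) ha
    have h2 := mul_le_mul_of_nonneg_left (le_max_right 0 ((σ j i : ℝ) * (x' (i, 0) - x' (i, 1)))) hb
    simp only [Pi.add_apply, Pi.smul_apply, smul_eq_mul]
    linarith

theorem pz_convex : Convex ℝ (PZ σ M : Set (Idx n m M → ℝ)) := by
  intro z hz z' hz' a b ha hb hab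
  refine ⟨?_, fun p => ?_, fun j k l => ?_⟩
  · have := inX_conv hz.1 hz'.1 ha hb hab
    exact this
  · have h1 := hz.2.1 p
    have h2 := hz'.2.1 p
    simp only [Pi.add_apply, Pi.smul_apply, smul_eq_mul]
    constructor
    · exact add_nonneg (mul_nonneg ha h1.1) (mul_nonneg hb h2.1)
    · nlinarith [mul_le_mul_of_nonneg_left h1.2 ha, mul_le_mul_of_nonneg_left h2.2 hb]
  · have h1 := mul_le_mul_of_nonneg_left (hz.2.2 j k l) ha
    have h2 := mul_le_mul_of_nonneg_left (hz'.2.2 j k l) hb
    have h3 := la_conv (σ := σ) (x := fun k => z (Sum.inl k)) (x' := fun k => z' (Sum.inl k)) ha hb j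
    have e : (fun k => (a • z + b • z') (Sum.inl k)) =
      a • (fun k => z (Sum.inl k)) + b • fun k => z' (Sum.inl k) := rfl
    rw [e]
    simp only [Pi.add_apply, Pi.smul_apply, smul_eq_mul]
    nlinarith

/-! ### Short paths -/

/-- increasing edge paths -/
def Steps (P : Set (Idx n m M → ℝ)) (N : ℕ) (u v : Idx n m M → ℝ) : Prop :=
  ∃ x : ℕ → Idx n m M → ℝ, x 0 = u ∧ x N = v ∧ (∀ k ≤ N, x k ∈ P.extremePoints ℝ) ∧
    ∀ k < N, IsExposed ℝ P (segment ℝ (x k) (x (k + 1))) ∧ CC (x k) < CC (x (k + 1))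

theorem Steps.refl {P : Set (Idx n m M → ℝ)} {u : Idx n m M → ℝ} (h : u ∈ P.extremePoints ℝ) :
    Steps P 0 u u :=
  ⟨fun _ => u, rfl, rfl, fun _ _ => h, fun k hk => absurd hk (Nat.not_lt_zero k)⟩

theorem Steps.trans {P : Set (Idx n m M → ℝ)} {u v w : Idx n m M → ℝ} {N N' : ℕ}
    (h : Steps P N u v) (h' : Steps P N' v w) : Steps P (N + N') u w := by
  obtain ⟨x, x0, xN, h1, h2⟩ := h
  obtain ⟨y, y0, yN, h3, h4⟩ := h'
  have e : ∀ k, N ≤ k → (if k ≤ N then x k else y (k - N)) = y (k - N) := by
    intro k hk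
    split_ifs with hle
    · have : k = N := le_antisymm hle hk
      rw [this, xN, Nat.sub_self, y0]
    · rfl
  refine ⟨fun k => if k ≤ N then x k else y (k - N), ?_, ?_, fun k hk => ?_, fun k hk => ?_⟩
  · simp [x0]
  · simp only
    rw [e _ (by omega), Nat.add_sub_cancel_left, yN]
  · simp only
    split_ifs with hle
    · exact h1 k hle
    · exact h3 _ (by omega)
  · simp only
    by_cases hlt : k < N
    · rw [if_pos hlt.le, if_pos (by omega)]
      exact h2 k hlt
    · rw [e k (by omega), e (k + 1) (by omega), show k + 1 - N = k - N + 1 by omega]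
      exact h4 _ (by omega)

/-- the points with constant blocks -/
noncomputable def pt (x : Fin n × Fin 2 → ℝ) (Y : Fin m → Bool) : Idx n m M → ℝ :=
  Sum.elim x fun p => if Y p.1 = true then 1 else 0

theorem pt_mem (hσ : ∀ j i, |σ j i| ≤ 1) {x : Fin n × Fin 2 → ℝ} (hx : InX x) (Y : Fin m → Bool) :
    (pt x Y : Idx n m M → ℝ) ∈ PZ σ M := by
  refine ⟨hx, fun p => ?_, fun j k l => ?_⟩
  · simp only [pt, Sum.elim_inr]
    split_ifs <;> norm_num
  · have := la_le_one hσ hx j
    have e : (fun k => (pt x Y : Idx n m M → ℝ) (Sum.inl k)) = x := rfl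
    rw [e]
    simp only [pt, Sum.elim_inr]
    linarith

theorem pt_extreme (hσ : ∀ j i, |σ j i| ≤ 1) {x : Fin n × Fin 2 → ℝ} (hx : InX x)
    (h01 : ∀ k, x k = 0 ∨ x k = 1) (Y : Fin m → Bool) :
    (pt x Y : Idx n m M → ℝ) ∈ (PZ σ M).extremePoints ℝ := by
  refine extreme_cube (fun z hz p => pz_cube hz p) (pt_mem hσ hx Y) fun p => ?_
  rcases p with k | p
  · exact h01 k
  · simp only [pt, Sum.elim_inr]
    split_ifs
    · exact Or.inr rfl
    · exact Or.inl rfl

/-- raising one coordinate of the first part -/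
theorem step_x (hσ : ∀ j i, |σ j i| ≤ 1) {x x' : Fin n × Fin 2 → ℝ} (hx : InX x) (hx' : InX x')
    (h01 : ∀ k, x k = 0 ∨ x k = 1) (h01' : ∀ k, x' k = 0 ∨ x' k = 1) {e : Fin n × Fin 2}
    (he : x e = 0) (he' : x' e = 1) (hne : ∀ k, k ≠ e → x k = x' k) (Y : Fin m → Bool) :
    Steps (PZ σ M) 1 (pt x Y) (pt x' Y) := by
  refine ⟨fun k => if k = 0 then pt x Y else pt x' Y, by simp, by simp, fun k hk => ?_,
    fun k hk => ?_⟩
  · simp only
    split_ifs
    · exact pt_extreme hσ hx h01 Y
    · exact pt_extreme hσ hx' h01' Y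
  · have hk0 : k = 0 := by omega
    subst hk0
    simp only [if_true, zero_add, one_ne_zero, if_false]
    constructor
    · refine exposed_cube (fun z hz p => pz_cube hz p)
        (fun p => (pt x Y : Idx n m M → ℝ) p = 1) (fun p => (pt x' Y : Idx n m M → ℝ) p = 0)
        (fun p h1 h2 => ?_) (fun w => ?_) ⟨_, left_mem_segment ℝ _ _⟩
      · rcases p with k | p
        · have h1' : x k = 1 := h1
          have h2' : x' k = 0 := h2
          by_cases hk : k = e
          · rw [hk, he] at h1'; norm_num at h1'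
          · rw [hne k hk, h2'] at h1'; norm_num at h1'
        · have : (pt x Y : Idx n m M → ℝ) (Sum.inr p) = (pt x' Y : Idx n m M → ℝ) (Sum.inr p) := rfl
          rw [this] at h1
          rw [h1] at h2
          norm_num at h2
      · constructor
        · intro hw
          refine ⟨pz_convex.segment_subset (pt_mem hσ hx Y) (pt_mem hσ hx' Y) hw, ?_⟩
          obtain ⟨a, b, ha, hb, hab, rfl⟩ := hw
          constructor
          · intro p hp
            have : (pt x' Y : Idx n m M → ℝ) p = 1 := by
              rcases p with k | p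
              · by_cases hk : k = e
                · rw [hk]; exact he'
                · exact (hne k hk).symm.trans hp
              · exact hp
            simp only [Pi.add_apply, Pi.smul_apply, smul_eq_mul]
            rw [hp, this]
            linarith
          · intro p hp
            have : (pt x Y : Idx n m M → ℝ) p = 0 := by
              rcases p with k | p
              · by_cases hk : k = e
                · rw [hk]; exact he
                · exact (hne k hk).trans hp
              · exact hp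
            simp only [Pi.add_apply, Pi.smul_apply, smul_eq_mul]
            rw [hp, this]
            ring
        · rintro ⟨hw, h1, h2⟩
          have hb := pz_cube hw (Sum.inl e)
          refine ⟨1 - w (Sum.inl e), w (Sum.inl e), by linarith [hb.2], hb.1, by ring, ?_⟩
          funext p
          simp only [Pi.add_apply, Pi.smul_apply, smul_eq_mul]
          rcases p with k | p
          · change (1 - w (Sum.inl e)) * x k + w (Sum.inl e) * x' k = w (Sum.inl k)
            by_cases hk : k = e
            · rw [hk, he, he']; ring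
            · rcases h01 k with h | h
              · rw [h2 (Sum.inl k) ((hne k hk).symm.trans h), ← hne k hk, h]; ring
              · rw [h1 (Sum.inl k) h, ← hne k hk, h]; ring
          · have e1 : (pt x' Y : Idx n m M → ℝ) (Sum.inr p) = (pt x Y : Idx n m M → ℝ) (Sum.inr p) :=
              rfl
            rw [e1]
            have h3 : (pt x Y : Idx n m M → ℝ) (Sum.inr p) = 0 ∨
                (pt x Y : Idx n m M → ℝ) (Sum.inr p) = 1 := by
              simp only [pt, Sum.elim_inr]
              split_ifs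
              · exact Or.inr rfl
              · exact Or.inl rfl
            rcases h3 with h | h
            · rw [h2 (Sum.inr p) (e1.trans h), h]; ring
            · rw [h1 (Sum.inr p) h, h]; ring
    · refine cc_lt (pt_mem hσ hx Y) (pt_mem hσ hx' Y) ?_
      change ∑ k, x k + 1 ≤ ∑ k, x' k
      rw [← Finset.add_sum_erase _ x (Finset.mem_univ e),
        ← Finset.add_sum_erase _ x' (Finset.mem_univ e), he, he']
      have : ∑ k ∈ Finset.univ.erase e, x k = ∑ k ∈ Finset.univ.erase e, x' k :=
        Finset.sum_congr rfl fun k hk => hne k (Finset.ne_of_mem_erase hk)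
      linarith

/-- raising a collapsed block -/
theorem step_y (hM : 0 < M) (hσ : ∀ j i, |σ j i| ≤ 1) {x : Fin n × Fin 2 → ℝ} (hx : InX x)
    (h01 : ∀ k, x k = 0 ∨ x k = 1) {j : Fin m} (hj : la σ x j = 1) {Y : Fin m → Bool}
    (hY : Y j = false) :
    Steps (PZ σ M) 1 (pt x Y) (pt x (Function.update Y j true)) := by
  set Y' := Function.update Y j true with hY'
  have eY : ∀ j', j' ≠ j → Y' j' = Y j' := fun j' h => Function.update_of_ne h _ _
  have eYj : Y' j = true := Function.update_self _ _ _
  refine ⟨fun k => if k = 0 then pt x Y else pt x Y', by simp, by simp, fun k hk => ?_,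
    fun k hk => ?_⟩
  · simp only
    split_ifs
    · exact pt_extreme hσ hx h01 Y
    · exact pt_extreme hσ hx h01 Y'
  · have hk0 : k = 0 := by omega
    subst hk0
    simp only [if_true, zero_add, one_ne_zero, if_false]
    have hval : ∀ p : Fin m × Fin M, p.1 ≠ j →
        (pt x Y : Idx n m M → ℝ) (Sum.inr p) = (pt x Y' : Idx n m M → ℝ) (Sum.inr p) := by
      intro p hp
      simp only [pt, Sum.elim_inr, eY p.1 hp]
    have hv0 : ∀ k, (pt x Y : Idx n m M → ℝ) (Sum.inr (j, k)) = 0 := by
      intro k; simp [pt, hY]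
    have hv1 : ∀ k, (pt x Y' : Idx n m M → ℝ) (Sum.inr (j, k)) = 1 := by
      intro k; simp [pt, eYj]
    constructor
    · refine exposed_cube (fun z hz p => pz_cube hz p)
        (fun p => (pt x Y : Idx n m M → ℝ) p = 1) (fun p => (pt x Y' : Idx n m M → ℝ) p = 0)
        (fun p h1 h2 => ?_) (fun w => ?_) ⟨_, left_mem_segment ℝ _ _⟩
      · rcases p with k | ⟨j', k⟩
        · have : (pt x Y : Idx n m M → ℝ) (Sum.inl k) = (pt x Y' : Idx n m M → ℝ) (Sum.inl k) := rfl
          rw [← this, h1] at h2
          norm_num at h2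
        · by_cases hjj : j' = j
          · subst hjj
            rw [hv0] at h1
            norm_num at h1
          · rw [hval (j', k) hjj, h2] at h1
            norm_num at h1
      · constructor
        · intro hw
          refine ⟨pz_convex.segment_subset (pt_mem hσ hx Y) (pt_mem hσ hx Y') hw, ?_⟩
          obtain ⟨a, b, ha, hb, hab, rfl⟩ := hw
          constructor
          · intro p hp
            have : (pt x Y' : Idx n m M → ℝ) p = 1 := by
              rcases p with k | ⟨j', k⟩
              · exact hp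
              · by_cases hjj : j' = j
                · subst hjj; exact hv1 k
                · exact (hval (j', k) hjj).symm.trans hp
            simp only [Pi.add_apply, Pi.smul_apply, smul_eq_mul]
            rw [hp, this]
            linarith
          · intro p hp
            have : (pt x Y : Idx n m M → ℝ) p = 0 := by
              rcases p with k | ⟨j', k⟩
              · exact hp
              · by_cases hjj : j' = j
                · subst hjj; exact hv0 k
                · exact (hval (j', k) hjj).trans hp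
            simp only [Pi.add_apply, Pi.smul_apply, smul_eq_mul]
            rw [hp, this]
            ring
        · rintro ⟨hw, h1, h2⟩
          have hb := pz_cube hw (Sum.inr (j, ⟨0, hM⟩))
          have hwx : (fun k => w (Sum.inl k)) = x := by
            funext k
            rcases h01 k with h | h
            · rw [h]; exact h2 (Sum.inl k) h
            · rw [h]; exact h1 (Sum.inl k) h
          have hall : ∀ k, w (Sum.inr (j, k)) = w (Sum.inr (j, ⟨0, hM⟩)) := by
            intro k
            have a1 := hw.2.2 j k ⟨0, hM⟩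
            have a2 := hw.2.2 j ⟨0, hM⟩ k
            rw [hwx, hj] at a1 a2
            linarith
          refine ⟨1 - w (Sum.inr (j, ⟨0, hM⟩)), w (Sum.inr (j, ⟨0, hM⟩)), by linarith [hb.2],
            hb.1, by ring, ?_⟩
          funext p
          simp only [Pi.add_apply, Pi.smul_apply, smul_eq_mul]
          rcases p with k | ⟨j', k⟩
          · change (1 - w (Sum.inr (j, ⟨0, hM⟩))) * x k + w (Sum.inr (j, ⟨0, hM⟩)) * x k =
              w (Sum.inl k)
            have : w (Sum.inl k) = x k := congrFun hwx k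
            rw [this]; ring
          · by_cases hjj : j' = j
            · subst hjj
              rw [hv0, hv1, hall k]; ring
            · have h3 : (pt x Y : Idx n m M → ℝ) (Sum.inr (j', k)) = 0 ∨
                  (pt x Y : Idx n m M → ℝ) (Sum.inr (j', k)) = 1 := by
                simp only [pt, Sum.elim_inr]
                split_ifs
                · exact Or.inr rfl
                · exact Or.inl rfl
              rw [← hval (j', k) hjj]
              rcases h3 with h | h
              · rw [h2 (Sum.inr (j', k)) ((hval (j', k) hjj).symm.trans h), h]; ring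
              · rw [h1 (Sum.inr (j', k)) h, h]; ring
    · unfold CC
      have e1 : ∑ k, (pt x Y : Idx n m M → ℝ) (Sum.inl k) =
        ∑ k, (pt x Y' : Idx n m M → ℝ) (Sum.inl k) := rfl
      rw [e1]
      have h3 : ∑ p, (pt x Y : Idx n m M → ℝ) (Sum.inr p) <
          ∑ p, (pt x Y' : Idx n m M → ℝ) (Sum.inr p) := by
        refine Finset.sum_lt_sum (fun p _ => ?_) ⟨(j, ⟨0, hM⟩), Finset.mem_univ _, ?_⟩
        · obtain ⟨j', k⟩ := p
          by_cases hjj : j' = j
          · subst hjj
            rw [hv0, hv1]; norm_num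
          · exact (hval (j', k) hjj).le
        · rw [hv0, hv1]; norm_num
      linarith

theorem flip_set (hM : 0 < M) (hσ : ∀ j i, |σ j i| ≤ 1) {x : Fin n × Fin 2 → ℝ} (hx : InX x)
    (h01 : ∀ k, x k = 0 ∨ x k = 1) {Y : Fin m → Bool} (S : Finset (Fin m))
    (hS : ∀ j ∈ S, la σ x j = 1 ∧ Y j = false) :
    Steps (PZ σ M) S.card (pt x Y) (pt x fun j => Y j || decide (j ∈ S)) := by
  classical
  induction S using Finset.induction_on with
  | empty =>
    simpa using Steps.refl (pt_extreme hσ hx h01 Y)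
  | insert j S hj ih =>
    have h1 := ih fun j' hj' => hS j' (Finset.mem_insert_of_mem hj')
    have h2 := hS j (Finset.mem_insert_self _ _)
    have h3 := step_y (Y := fun j => Y j || decide (j ∈ S)) hM hσ hx h01 h2.1 (by
      simp [h2.2, hj])
    rw [Finset.card_insert_of_notMem hj]
    have h4 := h1.trans h3
    convert h4 using 2
    funext j'
    by_cases hjj : j' = j
    · subst hjj
      simp
    · rw [Function.update_of_ne hjj]
      simp [hjj]

theorem la_xt (hσ : ∀ j i, |σ j i| ≤ 1) {α : Fin n → Bool} {j : Fin m} {i : Fin n}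
    (h : (σ j i = 1 ∧ α i = true) ∨ (σ j i = -1 ∧ α i = false)) :
    la σ (GP.xt α (2 * i + 1)) j = 1 := by
  refine le_antisymm (la_le_one hσ (GP.inX_xt α _) j) ?_
  have h1 : max 0 ((σ j i : ℝ) * (GP.xt α (2 * i + 1) (i, 0) - GP.xt α (2 * i + 1) (i, 1))) = 1 := by
    rcases h with ⟨h1, h2⟩ | ⟨h1, h2⟩
    · rw [h1]
      simp [GP.xt, GP.tm, h2]
    · rw [h1]
      simp [GP.xt, GP.tm, h2]
  unfold la
  rw [← h1]
  exact Finset.single_le_sum (f := fun i' => max 0 ((σ j i' : ℝ) *
    (GP.xt α (2 * i + 1) (i', 0) - GP.xt α (2 * i + 1) (i', 1)))) (fun i' _ => le_max_left _ _)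
    (Finset.mem_univ i)

theorem xt_zero_one (α : Fin n → Bool) (τ : ℕ) (k : Fin n × Fin 2) :
    GP.xt α τ k = 0 ∨ GP.xt α τ k = 1 := by
  unfold GP.xt
  split_ifs
  · exact Or.inr rfl
  · exact Or.inl rfl

/-- **The upper bound**: a satisfying assignment gives a short monotone path. -/
theorem short_path (hM : 0 < M) (hσ : ∀ j i, |σ j i| ≤ 1)
    (h : ∃ α : Fin n → Bool, ∀ j, ∃ i, (σ j i = 1 ∧ α i = true) ∨ (σ j i = -1 ∧ α i = false)) :
    ∃ u : ℕ → Idx n m M → ℝ, u 0 = (fun _ => 0) ∧ MPath (PZ σ M) CC (2 * n + m) u := by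
  classical
  obtain ⟨α, hα⟩ := h
  choose ch hch using hα
  have key : ∀ τ ≤ 2 * n, Steps (PZ σ M)
      (τ + (Finset.univ.filter fun j => 2 * (ch j : ℕ) + 1 < τ).card)
      (pt (GP.xt α 0) fun _ => false) (pt (GP.xt α τ) fun j => decide (2 * (ch j : ℕ) + 1 < τ)) := by
    intro τ
    induction τ with
    | zero =>
      intro _
      have := Steps.refl (pt_extreme (M := M) hσ (GP.inX_xt α 0) (xt_zero_one α 0) fun _ => false)
      simpa using this
    | succ τ ih =>
      intro hτ
      have h1 := ih (by omega)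
      have h2 := flip_set (M := M) hM hσ (GP.inX_xt α τ) (xt_zero_one α τ)
        (Y := fun j => decide (2 * (ch j : ℕ) + 1 < τ))
        (Finset.univ.filter fun j => 2 * (ch j : ℕ) + 1 = τ) (fun j hj => by
          rw [Finset.mem_filter] at hj
          refine ⟨?_, by simp; omega⟩
          rw [← hj.2]
          exact la_xt hσ (hch j))
      obtain ⟨e, he⟩ := GP.tm_surj α (show τ < 2 * n by omega)
      have h3 := step_x (M := M) hσ (GP.inX_xt α τ) (GP.inX_xt α (τ + 1)) (xt_zero_one α τ)
        (xt_zero_one α (τ + 1)) (e := e) (if_neg (by omega)) (if_pos (by omega)) (fun k hk => by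
          have hk2 : GP.tm α k ≠ τ := fun h => hk (GP.tm_inj α (h.trans he.symm))
          unfold GP.xt
          by_cases h : GP.tm α k < τ
          · rw [if_pos h, if_pos (by omega)]
          · rw [if_neg h, if_neg (by omega)]) (fun j => decide (2 * (ch j : ℕ) + 1 < τ + 1))
      have e1 : (fun j => decide (2 * (ch j : ℕ) + 1 < τ) ||
          decide (j ∈ Finset.univ.filter fun j => 2 * (ch j : ℕ) + 1 = τ)) =
          fun j => decide (2 * (ch j : ℕ) + 1 < τ + 1) := by
        funext j
        rw [Bool.eq_iff_iff]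
        simp
        omega
      rw [e1] at h2
      have h4 := (h1.trans h2).trans h3
      have e2 : (Finset.univ.filter fun j => 2 * (ch j : ℕ) + 1 < τ + 1).card =
          (Finset.univ.filter fun j => 2 * (ch j : ℕ) + 1 < τ).card +
          (Finset.univ.filter fun j => 2 * (ch j : ℕ) + 1 = τ).card := by
        rw [← Finset.card_union_of_disjoint]
        · congr 1
          ext j
          simp
          omega
        · rw [Finset.disjoint_filter]
          intro j _ h1 h2
          omega
      rw [e2]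
      convert h4 using 1
      omega
  obtain ⟨x, h1, h2, h3, h4⟩ := key (2 * n) le_rfl
  have e1 : (Finset.univ.filter fun j => 2 * (ch j : ℕ) + 1 < 2 * n).card = m := by
    rw [Finset.filter_true_of_mem fun j _ => by have := (ch j).2; omega]
    simp
  rw [e1] at h2 h3 h4
  refine ⟨x, ?_, h3, h4, fun y hy => ?_⟩
  · rw [h1]
    funext p
    rcases p with k | p
    · change GP.xt α 0 k = 0
      simp [GP.xt]
    · simp [pt]
  · rw [h2]
    have e2 : (pt (GP.xt α (2 * n)) (fun j => decide (2 * (ch j : ℕ) + 1 < 2 * n)) :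
        Idx n m M → ℝ) = fun _ => 1 := by
      funext p
      rcases p with k | p
      · have := tm_le α k
        have := k.1.2
        exact if_pos (by omega)
      · have := (ch p.1).2
        simp only [pt, Sum.elim_inr]
        rw [if_pos (decide_eq_true (by omega))]
    rw [e2]
    have h5 := cc_le hy
    have h6 : 0 ≤ ∑ p, (1 - y p) := Finset.sum_nonneg fun p _ => by
      have := (pz_cube hy p).2
      linarith
    linarith

theorem zero_mem (hσ : ∀ j i, |σ j i| ≤ 1) : (fun _ => 0 : Idx n m M → ℝ) ∈ PZ σ M := by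
  refine ⟨inX_const le_rfl zero_le_one, fun _ => ⟨le_rfl, zero_le_one⟩, fun j k l => ?_⟩
  have := la_le_one hσ (inX_const (n := n) (le_refl (0 : ℝ)) zero_le_one) j
  linarith

theorem zero_extreme (hσ : ∀ j i, |σ j i| ≤ 1) :
    (fun _ => 0 : Idx n m M → ℝ) ∈ (PZ σ M).extremePoints ℝ :=
  extreme_cube (fun z hz p => pz_cube hz p) (zero_mem hσ) fun _ => Or.inl rfl

end Pool.Agent.X239.GZ
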