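import Pool.Agent.X239.GZ.LP
import Pool.Agent.X239.GP.PolyT
set_option autoImplicit false

/-!
# The linear program is computable in polynomial time, 0/1 version
-/

namespace Pool.Agent.NPC.X239GZ

open Pool.Agent.Y644.QS Pool.Agent.Y644.QW Pool.Agent.H687R2.LLL Pool.Agent.NPC.H532.RP
  Pool.Agent.NPC.Y644
open Pool.Agent.X239.GP (Cl sgn sg cX n2)
open Pool.Agent.NPC.X239GP (poly_sgn upoly_n2 poly_n2 poly_cX)
open Pool.Agent.X239.GZ (sgE sgEf cols b8 cD rowX rowD rows mA mb mc ccf)

variable {α : Type} [TEnc α]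

attribute [local fun_prop] poly_sgn upoly_n2 poly_n2 poly_cX

theorem poly_sgE {c : α → Cl} {b : α → Bool × Bool × Bool} {i : α → ℕ} (hc : Poly c)
    (hb : Poly b) (hi : Poly i) : Poly (fun a => sgE (c a) (b a) (i a)) := by
  unfold sgE
  fun_prop

attribute [local fun_prop] poly_sgE

theorem poly_sgEf {φ : α → List Cl} {j i : α → ℕ} {b : α → Bool × Bool × Bool} (hφ : Poly φ)
    (hj : Poly j) (hb : Poly b) (hi : Poly i) :
    Poly (fun a => sgEf (φ a) (j a) (b a) (i a)) := by
  unfold sgEf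
  exact Poly.optElim (h := fun a c => sgE c (b a) (i a)) (by fun_prop) (by fun_prop)
    (by fun_prop)

attribute [local fun_prop] poly_sgEf

theorem upoly_cols {φ : α → List Cl} {M : α → ℕ} (hφ : Poly φ) (hM : UPoly M) :
    UPoly (fun a => cols (φ a) (M a)) := by
  unfold cols
  fun_prop

theorem poly_cD {φ : α → List Cl} {M j k l : α → ℕ} {b : α → Bool × Bool × Bool} {q : α → ℕ}
    (hφ : Poly φ) (hM : Poly M) (hj : Poly j) (hk : Poly k) (hl : Poly l) (hb : Poly b)
    (hq : Poly q) : Poly (fun a => cD (φ a) (M a) (j a) (k a) (l a) (b a) (q a)) := by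
  unfold cD
  fun_prop

attribute [local fun_prop] poly_cD

theorem poly_rowX {φ : α → List Cl} {M k1 k2 : α → ℕ} {b : α → ℤ} (hφ : Poly φ) (hM : UPoly M)
    (h1 : Poly k1) (h2 : Poly k2) (hb : Poly b) :
    Poly (fun a => rowX (φ a) (M a) (k1 a) (k2 a) (b a)) := by
  unfold rowX
  exact Poly.pair (Poly.map (F := fun a k => cX (k1 a) (k2 a) k) (UPoly.range (upoly_cols hφ hM))
    (by fun_prop)) hb

theorem poly_rowD {φ : α → List Cl} {M j k l : α → ℕ} {b : α → Bool × Bool × Bool}
    (hφ : Poly φ) (hM : UPoly M) (hj : Poly j) (hk : Poly k) (hl : Poly l) (hb : Poly b) :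
    Poly (fun a => rowD (φ a) (M a) (j a) (k a) (l a) (b a)) := by
  have hM' : Poly M := hM.toPoly
  unfold rowD
  exact Poly.pair (Poly.map (F := fun a q => cD (φ a) (M a) (j a) (k a) (l a) (b a) q)
    (UPoly.range (upoly_cols hφ hM)) (by fun_prop)) (Poly.const _)

theorem poly_rows {φ : α → List Cl} {M : α → ℕ} (hφ : Poly φ) (hM : UPoly M) :
    Poly (fun a => rows (φ a) (M a)) := by
  have hM' : Poly M := hM.toPoly
  have hc := upoly_cols hφ hM
  unfold rows
  refine Poly.append (Poly.append ?_ ?_) ?_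
  · refine Poly.map (F := fun a k => rowX (φ a) (M a) (cols (φ a) (M a)) k 1)
      (UPoly.range hc) ?_
    exact poly_rowX (α := α × ℕ) (φ := fun p => φ p.1) (M := fun p => M p.1)
      (k1 := fun p => cols (φ p.1) (M p.1)) (k2 := fun p => p.2) (b := fun _ => 1)
      (by fun_prop) (by fun_prop) (UPoly.toPoly (upoly_cols (by fun_prop) (by fun_prop)))
      (by fun_prop) (by fun_prop)
  · refine Poly.flatMap (F := fun a k => (List.range 2).map fun s =>
      rowX (φ a) (M a) k (2 * (k / 2) + 2 + s) 0) (l := fun a => List.range (n2 (φ a) - 2)) ?_ ?_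
    · exact UPoly.range (UPoly.of_le (n := fun a => n2 (φ a)) (by fun_prop) (by fun_prop)
        fun a => Nat.sub_le _ _)
    · exact Poly.map (F := fun (p : α × ℕ) s => rowX (φ p.1) (M p.1) p.2
        (2 * (p.2 / 2) + 2 + s) 0) (Poly.const _)
        (poly_rowX (by fun_prop) (by fun_prop) (by fun_prop) (by fun_prop) (by fun_prop))
  · refine Poly.flatMap (F := fun a j => (List.range (M a)).flatMap fun k =>
      (List.range (M a)).flatMap fun l => b8.map fun b => rowD (φ a) (M a) j k l b)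
      (UPoly.range (by fun_prop)) ?_
    refine Poly.flatMap (F := fun (p : α × ℕ) k => (List.range (M p.1)).flatMap fun l =>
      b8.map fun b => rowD (φ p.1) (M p.1) p.2 k l b) (UPoly.range (by fun_prop)) ?_
    refine Poly.flatMap (F := fun (p : (α × ℕ) × ℕ) l =>
      b8.map fun b => rowD (φ p.1.1) (M p.1.1) p.1.2 p.2 l b) (UPoly.range (by fun_prop)) ?_
    exact Poly.map (F := fun (p : ((α × ℕ) × ℕ) × ℕ) b =>
      rowD (φ p.1.1.1) (M p.1.1.1) p.1.1.2 p.1.2 p.2 b) (Poly.const _)
      (poly_rowD (by fun_prop) (by fun_prop) (by fun_prop) (by fun_prop) (by fun_prop)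
        (by fun_prop))

/-- the linear program of a formula -/
def build (φ : List Cl) (M : ℕ) : Inp :=
  ((rows φ M).map fun r => r.1.map fun z => mkRat z 1, (rows φ M).map fun r => mkRat r.2 1,
    (List.range (cols φ M)).map fun k => mkRat (ccf φ M k) 1,
    (List.range (cols φ M)).map fun _ => 0)

theorem poly_ccf {φ : α → List Cl} {M k : α → ℕ} (hφ : Poly φ) (hM : Poly M) (hk : Poly k) :
    Poly (fun a => ccf (φ a) (M a) (k a)) := by
  unfold ccf
  fun_prop

theorem poly_build {φ : α → List Cl} {M : α → ℕ} (hφ : Poly φ) (hM : UPoly M) :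
    Poly (fun a => build (φ a) (M a)) := by
  have hM' : Poly M := hM.toPoly
  have hr := poly_rows hφ hM
  unfold build
  refine Poly.pair ?_ (Poly.pair ?_ (Poly.pair ?_ ?_))
  · refine Poly.map (F := fun _ (r : List ℤ × ℤ) => r.1.map fun z => mkRat z 1) hr ?_
    exact Poly.map (F := fun _ z => mkRat z 1) (by fun_prop) (by fun_prop)
  · exact Poly.map (F := fun _ (r : List ℤ × ℤ) => mkRat r.2 1) hr (by fun_prop)
  · refine Poly.map (F := fun a k => mkRat (ccf (φ a) (M a) k) 1)
      (UPoly.range (upoly_cols hφ hM)) ?_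
    exact poly_mkRat (poly_ccf (by fun_prop) (by fun_prop) (by fun_prop)) (Poly.const _)
  · exact Poly.map (F := fun _ _ => (0 : ℚ)) (UPoly.range (upoly_cols hφ hM)) (Poly.const _)

theorem row_length {φ : List Cl} {M : ℕ} {r : List ℤ × ℤ} (h : r ∈ rows φ M) :
    r.1.length = cols φ M := by
  unfold rows at h
  simp only [List.mem_append, List.mem_map, List.mem_flatMap] at h
  rcases h with (⟨s, -, rfl⟩ | ⟨k, -, s, -, rfl⟩) | ⟨j, -, k, -, l, -, b, -, rfl⟩ <;>
    simp [rowX, rowD]

theorem build_eq (φ : List Cl) (M : ℕ) : build φ M =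
    Pool.Agent.Y644.QS.inp (mA φ M) (mb φ M) (mc φ M) (fun _ => 0) := by
  unfold build Pool.Agent.Y644.QS.inp
  refine Prod.ext ?_ (Prod.ext ?_ (Prod.ext ?_ ?_))
  · refine List.ext_getElem (by simp) fun i h1 h2 => ?_
    rw [List.getElem_map, List.getElem_ofFn]
    refine List.ext_getElem ?_ fun k h3 h4 => ?_
    · rw [List.length_map, List.length_ofFn, row_length (List.getElem_mem _)]
      rfl
    · rw [List.getElem_map, List.getElem_ofFn]
      unfold mA
      rw [List.getD_eq_getElem?_getD, List.getElem?_eq_getElem (by simpa using h3), Rat.mkRat_one]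
      rfl
  · refine List.ext_getElem (by simp) fun i h1 h2 => ?_
    rw [List.getElem_map, List.getElem_ofFn, Rat.mkRat_one]
    rfl
  · refine List.ext_getElem (by simp [cols]) fun i h1 h2 => ?_
    rw [List.getElem_map, List.getElem_ofFn, List.getElem_range, Rat.mkRat_one]
    rfl
  · refine List.ext_getElem (by simp [cols]) fun i h1 h2 => ?_
    rw [List.getElem_map, List.getElem_ofFn]

/-! ### The number of variables -/

/-- the length of the chains -/
def MM (k : ℕ) (φ : List Cl) : ℕ := (7 * φ.length) ^ k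

/-- the number of variables -/
def nv (k : ℕ) (φ : List Cl) : ℕ := 3 * φ.length * 2 + φ.length * MM k φ

theorem mm_pos {k : ℕ} {φ : List Cl} (hφ : 1 ≤ φ.length) : 1 ≤ MM k φ := by
  unfold MM
  exact Nat.one_le_pow _ _ (by omega)

theorem length_upper {k : ℕ} {φ : List Cl} (hk : 1 ≤ k) (hφ : 1 ≤ φ.length) :
    nv k φ ^ (k - 1) ≤ MM k φ ^ k := by
  have hM := mm_pos (k := k) hφ
  have h1 : nv k φ ≤ 7 * φ.length * MM k φ := by
    unfold nv
    nlinarith [Nat.zero_le (φ.length * MM k φ)]
  calc nv k φ ^ (k - 1) ≤ (7 * φ.length * MM k φ) ^ (k - 1) := Nat.pow_le_pow_left h1 _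
    _ = (7 * φ.length) ^ (k - 1) * MM k φ ^ (k - 1) := by rw [mul_pow]
    _ ≤ MM k φ * MM k φ ^ (k - 1) := by
      refine Nat.mul_le_mul_right _ ?_
      exact Nat.pow_le_pow_right (by omega) (by omega)
    _ = MM k φ ^ k := by
      rw [← pow_succ']
      congr 1
      omega

theorem length_lower {k : ℕ} {φ : List Cl} (hφ : 1 ≤ φ.length) :
    (7 * φ.length) ^ k ≤ nv k φ := by
  have h1 : MM k φ ≤ φ.length * MM k φ := Nat.le_mul_of_pos_left _ (by omega)
  unfold nv
  unfold MM at h1 ⊢
  omega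

theorem upoly_MM {α : Type} [TEnc α] {φ : α → List Cl} (hφ : Poly φ) (k : ℕ) :
    UPoly (fun a => MM k (φ a)) := by
  unfold MM
  exact UPoly_pow (UPoly.mul (UPoly.const _) (UPoly.length hφ)) _

end Pool.Agent.NPC.X239GZ
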